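import Pool.Agent.H78.KW.Frz

/-!
ROW Few.  The number of changes along a chain, for a circuit with few special gates.

`changes_few`. Let `h` be from `frozen`. For a step `j` with a change let `i` be the least special gate having a test `x ∈ C.tests i` that changes. Let `U = {i' ∈ special, i' < i, C.val i' (G j) = 1}`. The special gates `i' < i` have
equal values on `G j`, `G (j+1)` (their tests do not change), given by the indicator `v` of `U` (`v i' = if i' ∈ U then 1 else 0`); so `C.val x.1 = h v x.1` on both graphs (property 3, `x.1 < i`).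
So the pair `(i, U, x)`, `U ⊆ special.filter (· < i)`, `x ∈ tests i`, satisfies `¬ (x.2 ≤ h v x.1 (G j)) ∧ x.2 ≤ h v x.1 (G (j+1))`, as `h v` is monotone in the graph
(`Pool.Agent.H78.KK.MonoGate.mono` in KK/Expl.lean; prove it again here as `Few_mono` to avoid the import). For each triple `(i, U, x)` this happens for at most one step `j` (monotone). The number of triples is at most
`Σ_{i ∈ special} 2 ^ #{i' ∈ special, i' < i} * t = t (2 ^ |special| - 1) ≤ t (2 ^ r - 1)`: `Σ_{i ∈ S} 2 ^ #{i' ∈ S, i' < i} + 1 = 2 ^ |S|` by induction on `S` (`Finset.induction_on_max`).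
-/

namespace Pool.Agent.H78.KW

open Finset Classical

private theorem Few_mono {n s p q : ℕ} {val : Fin s → SimpleGraph (Fin n) → ℝ}
    (h : ∀ i, Pool.Agent.H78.KK.MonoGate val p q i) {G G' : SimpleGraph (Fin n)} (hG : G ≤ G') (i : Fin s) :
    val i G ≤ val i G' := by
  induction i using WellFoundedLT.induction with
  | _ i ih =>
    rcases h i with ⟨u, v, huv⟩ | hi | hi
    · by_cases h1 : G.Adj u v
      · rw [(huv G).1 h1, (huv G').1 (hG h1)]
      · rw [(huv G).2 h1]
        by_cases h2 : G'.Adj u v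
        · rw [(huv G').1 h2]
          norm_num
        · rw [(huv G').2 h2]
    · obtain ⟨S, _, hS, hv⟩ := hi G'
      exact hv G fun j hj => ih j (hS j hj)
    · obtain ⟨S, _, hS, hv⟩ := hi G
      exact hv G' fun j hj => ih j (hS j hj)

private theorem Few_sum {s : ℕ} (S : Finset (Fin s)) :
    ∑ i ∈ S, 2 ^ (S.filter (· < i)).card + 1 = 2 ^ S.card := by
  induction S using Finset.induction_on_max with
  | empty => simp
  | insert a S ha ih =>
    have haS : a ∉ S := fun h => lt_irrefl a (ha a h)
    rw [sum_insert haS, card_insert_of_notMem haS]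
    have h1 : (insert a S).filter (· < a) = S := by
      ext x
      simp only [mem_filter, mem_insert]
      constructor
      · rintro ⟨rfl | h, h2⟩
        · exact absurd h2 (lt_irrefl _)
        · exact h
      · intro h; exact ⟨Or.inr h, ha x h⟩
    have h2 : ∀ i ∈ S, (insert a S).filter (· < i) = S.filter (· < i) := by
      intro i hi
      ext x
      simp only [mem_filter, mem_insert]
      constructor
      · rintro ⟨rfl | h, h2⟩
        · exact absurd (lt_trans h2 (ha i hi)) (lt_irrefl _)
        · exact ⟨h, h2⟩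
      · rintro ⟨h, h2⟩; exact ⟨Or.inr h, h2⟩
    rw [h1, sum_congr rfl fun i hi => by rw [h2 i hi], add_assoc, ih, pow_succ]
    ring

/-- the indicator of a set of gates -/
private noncomputable def Few_ind {s : ℕ} (U : Finset (Fin s)) : Fin s → ℝ := fun i => if i ∈ U then 1 else 0

theorem changes_few {n s p q r t : ℕ} (C : Circuit n s p q) (hr : C.special.card ≤ r)
    (ht : ∀ i ∈ C.special, (C.tests i).card ≤ t)
    (h01 : ∀ i ∈ C.special, ∀ G, C.val i G = 0 ∨ C.val i G = 1)
    (G : ℕ → SimpleGraph (Fin n)) (hG : Monotone G) (m : ℕ) :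
    C.changes G m ≤ t * (2 ^ r - 1) := by
  obtain ⟨h, hmg, _, hval, _⟩ := frozen C
  set T : Finset (Fin s × Finset (Fin s) × (Fin s × ℝ)) :=
    C.special.biUnion fun i => (((C.special.filter (· < i)).powerset ×ˢ C.tests i).image fun y => (i, y)) with hT
  set R : ℕ → (Fin s × Finset (Fin s) × (Fin s × ℝ)) → Prop := fun j y =>
    ¬ (y.2.2.2 ≤ h (Few_ind y.2.1) y.2.2.1 (G j)) ∧ y.2.2.2 ≤ h (Few_ind y.2.1) y.2.2.1 (G (j + 1)) with hR
  have key : ∀ j ∈ (range m).filter (fun j => C.Changes (G j) (G (j + 1))), ∃ y ∈ T, R j y := by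
    intro j hj
    rw [mem_filter] at hj
    obtain ⟨x0, hx0, hch0⟩ := hj.2
    unfold Circuit.watched at hx0
    rw [mem_biUnion] at hx0
    obtain ⟨i0, hi0, hx0i⟩ := hx0
    set B : Finset (Fin s) := C.special.filter (fun i => ∃ x ∈ C.tests i,
      ¬ (x.2 ≤ C.val x.1 (G j) ↔ x.2 ≤ C.val x.1 (G (j + 1)))) with hB
    have hBne : B.Nonempty := ⟨i0, by rw [hB, mem_filter]; exact ⟨hi0, x0, hx0i, hch0⟩⟩
    obtain ⟨i, hiB, hmin⟩ := B.exists_min_image id hBne
    rw [hB, mem_filter] at hiB
    obtain ⟨hisp, x, hx, hch⟩ := hiB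
    have hsame : ∀ i' ∈ C.special, i' < i → C.val i' (G j) = C.val i' (G (j + 1)) := by
      intro i' hi' hlt
      refine (C.special_gate i' hi').2 _ _ fun y hy => ?_
      by_contra hcon
      have h1 : i' ∈ B := by rw [hB, mem_filter]; exact ⟨hi', y, hy, hcon⟩
      exact absurd hlt (not_lt.2 (hmin i' h1))
    set U : Finset (Fin s) := C.special.filter (fun i' => i' < i ∧ C.val i' (G j) = 1) with hU
    have hxlt : x.1 < i := C.wires_lt i x.1 ((C.special_gate i hisp).1 x hx)
    have hind : ∀ i' ∈ C.special, i' ≤ x.1 → C.val i' (G j) = Few_ind U i' := by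
      intro i' hi' hle
      have hlt : i' < i := lt_of_le_of_lt hle hxlt
      unfold Few_ind
      by_cases hmem : i' ∈ U
      · rw [if_pos hmem]
        rw [hU, mem_filter] at hmem
        exact hmem.2.2
      · rw [if_neg hmem]
        rcases h01 i' hi' (G j) with h0 | h1
        · exact h0
        · exact absurd (by rw [hU, mem_filter]; exact ⟨hi', hlt, h1⟩) hmem
    have e1 : h (Few_ind U) x.1 (G j) = C.val x.1 (G j) := hval _ _ _ hind
    have e2 : h (Few_ind U) x.1 (G (j + 1)) = C.val x.1 (G (j + 1)) := by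
      refine hval _ _ _ fun i' hi' hle => ?_
      rw [← hsame i' hi' (lt_of_le_of_lt hle hxlt)]
      exact hind i' hi' hle
    have hle : h (Few_ind U) x.1 (G j) ≤ h (Few_ind U) x.1 (G (j + 1)) :=
      Few_mono (hmg _) (hG (Nat.le_succ j)) x.1
    refine ⟨(i, U, x), ?_, ?_⟩
    · rw [hT, mem_biUnion]
      refine ⟨i, hisp, mem_image.2 ⟨(U, x), ?_, rfl⟩⟩
      rw [mem_product, mem_powerset]
      refine ⟨?_, hx⟩
      intro i' hi'
      rw [hU, mem_filter] at hi'
      rw [mem_filter]
      exact ⟨hi'.1, hi'.2.1⟩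
    · rw [← e1, ← e2] at hch
      show ¬ (x.2 ≤ h (Few_ind U) x.1 (G j)) ∧ x.2 ≤ h (Few_ind U) x.1 (G (j + 1))
      by_cases h1 : x.2 ≤ h (Few_ind U) x.1 (G j)
      · exact absurd (iff_of_true h1 (h1.trans hle)) hch
      · refine ⟨h1, ?_⟩
        by_contra h2
        exact hch (iff_of_false h1 h2)
  have hsub : ∀ y ∈ T, ({j ∈ (range m).filter (fun j => C.Changes (G j) (G (j + 1))) | R j y} : Set ℕ).Subsingleton := by
    intro y _ j hj j' hj'
    have hj2 : R j y := hj.2
    have hj2' : R j' y := hj'.2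
    by_contra hne
    rcases lt_or_gt_of_ne hne with hlt | hlt
    · exact hj2'.1 (hj2.2.trans (Few_mono (hmg _) (hG hlt) _))
    · exact hj2.1 (hj2'.2.trans (Few_mono (hmg _) (hG hlt) _))
  have hcard : C.changes G m ≤ T.card := by
    unfold Circuit.changes
    exact card_le_card_of_forall_subsingleton R key hsub
  have hTc : T.card ≤ ∑ i ∈ C.special, 2 ^ (C.special.filter (· < i)).card * t := by
    refine card_biUnion_le.trans (sum_le_sum fun i hi => ?_)
    refine card_image_le.trans ?_
    rw [card_product, card_powerset]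
    exact Nat.mul_le_mul_left _ (ht i hi)
  rw [← sum_mul] at hTc
  have hs := Few_sum C.special
  have hpow : 2 ^ C.special.card ≤ 2 ^ r := Nat.pow_le_pow_right (by norm_num) hr
  calc C.changes G m ≤ (∑ i ∈ C.special, 2 ^ (C.special.filter (· < i)).card) * t := hcard.trans hTc
    _ ≤ (2 ^ r - 1) * t := Nat.mul_le_mul_right t (by omega)
    _ = t * (2 ^ r - 1) := Nat.mul_comm _ _

end Pool.Agent.H78.KW
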