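import Pool.Agent.H78.KW.Defs

/-!
ROW Lev.  The number of changes along a chain, for a circuit with levels.

`changes_levels`. Let `c a` be the number of steps `j < m` at which some `x ∈ C.watched` with `lev x.1 < a` changes. Claim: `c a + 1 ≤ Π_{b < a} (1 + w b)`, `w b = C.watchedAt lev b`; induction on `a`,
`c 0 = 0`. Step: (i) if on `G ≤ G'` all special gates of level `≤ a` have equal values, then `C.val i G ≤ C.val i G'` for all `i` with `lev i ≤ a` (strong induction on `i`; special gates: equal;
tests of a pair: monotone in the graph; upper certificates: take the certificate `S ⊆ wires i` at `G'`, the members have level `≤ lev i ≤ a`; lower certificates: at `G`). (ii) A special gate `i` of level `≤ a` has all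
its tests on gates of level `< a`; so if no watched test of level `< a` changes between `G j` and `G (j+1)`, the special gates of level `≤ a` have equal values on both (`special_gate`).
Hence in a block of consecutive steps without a change of level `< a` every `C.val i`, `lev i ≤ a`, is nondecreasing, and every watched test of level `a` changes at most once in the block.
There are at most `c a + 1` blocks, so the number of pairs (step, `x`), `x` watched of level `a`, with a change of `x` at a step where no test of level `< a` changes is at most `(c a + 1) (w a)`: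
for fixed `x` the map step `j ↦ #{j' < j : change of level < a at j'}` is injective on the steps of this kind (values in `range (c a + 1)`).
So `c (a+1) ≤ c a + (c a + 1) w a`, `c (a+1) + 1 ≤ (c a + 1) (1 + w a)`. Finally `C.changes G m = c D` if all watched levels are `< D` (`hD`).
-/

namespace Pool.Agent.H78.KW

open Finset Classical

/-- A test of a gate of level less than `a` changes at step `j`. -/
def Lev_ch {n s p q : ℕ} (C : Circuit n s p q) (lev : Fin s → ℕ) (G : ℕ → SimpleGraph (Fin n))
    (a j : ℕ) : Prop :=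
  ∃ x ∈ C.watched, lev x.1 < a ∧ ¬ (x.2 ≤ C.val x.1 (G j) ↔ x.2 ≤ C.val x.1 (G (j + 1)))

theorem Lev_mono {n s p q : ℕ} (C : Circuit n s p q) (lev : Fin s → ℕ) (hlev : C.IsLevel lev)
    (a : ℕ) (G G' : SimpleGraph (Fin n)) (hGG : G ≤ G')
    (hsp : ∀ i ∈ C.special, lev i ≤ a → C.val i G = C.val i G') :
    ∀ k : ℕ, ∀ i : Fin s, (i : ℕ) = k → lev i ≤ a → C.val i G ≤ C.val i G' := by
  intro k
  induction k using Nat.strong_induction_on with
  | _ k ih =>
    intro i hik hia
    by_cases hi : i ∈ C.special
    · exact (hsp i hi hia).le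
    · have key : ∀ j ∈ C.wires i, C.val j G ≤ C.val j G' := by
        intro j hj
        have h1 : (j : ℕ) < k := by
          have := C.wires_lt i j hj
          rw [← hik]
          exact this
        exact ih j h1 j rfl (((hlev i j hj).1).trans hia)
      rcases C.mono_gate i hi with ⟨u, v, h⟩ | h | h
      · by_cases hG : G.Adj u v
        · rw [(h G).1 hG, (h G').1 (hGG hG)]
        · rw [(h G).2 hG]
          by_cases hG' : G'.Adj u v
          · rw [(h G').1 hG']; exact zero_le_one
          · rw [(h G').2 hG']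
      · obtain ⟨S, hS, -, hS2⟩ := h G'
        exact hS2 G fun j hj => key j (hS hj)
      · obtain ⟨S, hS, -, hS2⟩ := h G
        exact hS2 G' fun j hj => key j (hS hj)

theorem Lev_step {n s p q : ℕ} (C : Circuit n s p q) (lev : Fin s → ℕ) (hlev : C.IsLevel lev)
    (G : ℕ → SimpleGraph (Fin n)) (hG : Monotone G) (a j : ℕ) (hj : ¬ Lev_ch C lev G a j)
    (i : Fin s) (hi : lev i ≤ a) : C.val i (G j) ≤ C.val i (G (j + 1)) := by
  refine Lev_mono C lev hlev a (G j) (G (j + 1)) (hG (Nat.le_succ j)) ?_ i i rfl hi
  intro i' hi' hia'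
  obtain ⟨h1, h2⟩ := C.special_gate i' hi'
  apply h2
  intro x hx
  by_contra hne
  apply hj
  refine ⟨x, ?_, ?_, hne⟩
  · unfold Circuit.watched
    exact Finset.mem_biUnion.2 ⟨i', hi', hx⟩
  · exact lt_of_lt_of_le ((hlev i' x.1 (h1 x hx)).2 hi') hia'

theorem Lev_block {n s p q : ℕ} (C : Circuit n s p q) (lev : Fin s → ℕ) (hlev : C.IsLevel lev)
    (G : ℕ → SimpleGraph (Fin n)) (hG : Monotone G) (a j : ℕ) (i : Fin s) (hi : lev i ≤ a) :
    ∀ d : ℕ, (∀ j', j ≤ j' → j' < j + d → ¬ Lev_ch C lev G a j') →
      C.val i (G j) ≤ C.val i (G (j + d)) := by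
  intro d
  induction d with
  | zero => intro _; exact le_refl _
  | succ d ih =>
    intro h
    refine (ih fun j' h1 h2 => h j' h1 (by omega)).trans ?_
    exact Lev_step C lev hlev G hG a (j + d) (h (j + d) (by omega) (by omega)) i hi

theorem Lev_one {n s p q : ℕ} (C : Circuit n s p q) (lev : Fin s → ℕ) (hlev : C.IsLevel lev)
    (G : ℕ → SimpleGraph (Fin n)) (hG : Monotone G) (m a : ℕ) (x : Fin s × ℝ)
    (hx : lev x.1 = a) :
    ((range m).filter fun j => ¬ Lev_ch C lev G a j ∧
      ¬ (x.2 ≤ C.val x.1 (G j) ↔ x.2 ≤ C.val x.1 (G (j + 1)))).card ≤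
      ((range m).filter fun j => Lev_ch C lev G a j).card + 1 := by
  set A := (range m).filter fun j => ¬ Lev_ch C lev G a j ∧
      ¬ (x.2 ≤ C.val x.1 (G j) ↔ x.2 ≤ C.val x.1 (G (j + 1))) with hA
  have hkey : ∀ j1 ∈ A, ∀ j2 ∈ A, j1 < j2 →
      ((range j1).filter fun j => Lev_ch C lev G a j).card ≠
      ((range j2).filter fun j => Lev_ch C lev G a j).card := by
    intro j1 hj1 j2 hj2 hlt heq
    rw [hA, Finset.mem_filter] at hj1 hj2
    have hsub : ((range j1).filter fun j => Lev_ch C lev G a j) ⊆
        ((range j2).filter fun j => Lev_ch C lev G a j) :=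
      Finset.filter_subset_filter _ (Finset.range_subset_range.2 hlt.le)
    have hset := Finset.eq_of_subset_of_card_le hsub heq.symm.le
    have hno : ∀ j', j1 ≤ j' → j' < j2 → ¬ Lev_ch C lev G a j' := by
      intro j' h1 h2 h3
      have hm : j' ∈ (range j2).filter fun j => Lev_ch C lev G a j :=
        Finset.mem_filter.2 ⟨Finset.mem_range.2 h2, h3⟩
      rw [← hset, Finset.mem_filter, Finset.mem_range] at hm
      omega
    have e1 : C.val x.1 (G j1) ≤ C.val x.1 (G (j1 + 1)) :=
      Lev_step C lev hlev G hG a j1 hj1.2.1 x.1 hx.le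
    have e2 : C.val x.1 (G (j1 + 1)) ≤ C.val x.1 (G j2) := by
      have := Lev_block C lev hlev G hG a (j1 + 1) x.1 hx.le (j2 - (j1 + 1))
        (fun j' h1 h2 => hno j' (by omega) (by omega))
      have h3 : j1 + 1 + (j2 - (j1 + 1)) = j2 := by omega
      rw [h3] at this
      exact this
    have e3 : C.val x.1 (G j2) ≤ C.val x.1 (G (j2 + 1)) :=
      Lev_step C lev hlev G hG a j2 hj2.2.1 x.1 hx.le
    have h5 : x.2 ≤ C.val x.1 (G (j1 + 1)) := by
      by_contra h6
      apply hj1.2.2
      constructor
      · intro h7; exact h7.trans e1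
      · intro h7; exact absurd h7 h6
    apply hj2.2.2
    constructor
    · intro _; exact (h5.trans e2).trans e3
    · intro _; exact h5.trans e2
  have hinj : Set.InjOn (fun j2 => ((range j2).filter fun j => Lev_ch C lev G a j).card)
      (A : Set ℕ) := by
    intro j1 hj1 j2 hj2 heq
    rcases lt_trichotomy j1 j2 with h | h | h
    · exact absurd heq (hkey j1 hj1 j2 hj2 h)
    · exact h
    · exact absurd heq.symm (hkey j2 hj2 j1 hj1 h)
  have hmaps : ∀ j2 ∈ A, (fun j2 => ((range j2).filter fun j => Lev_ch C lev G a j).card) j2 ∈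
      range (((range m).filter fun j => Lev_ch C lev G a j).card + 1) := by
    intro j2 hj2
    rw [Finset.mem_range, Nat.lt_succ_iff]
    rw [hA, Finset.mem_filter, Finset.mem_range] at hj2
    exact Finset.card_le_card
      (Finset.filter_subset_filter _ (Finset.range_subset_range.2 hj2.1.le))
  have := Finset.card_le_card_of_injOn _ hmaps hinj
  rwa [Finset.card_range] at this

theorem Lev_succ {n s p q : ℕ} (C : Circuit n s p q) (lev : Fin s → ℕ) (hlev : C.IsLevel lev)
    (G : ℕ → SimpleGraph (Fin n)) (hG : Monotone G) (m a : ℕ) :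
    ((range m).filter fun j => Lev_ch C lev G (a + 1) j).card ≤
      ((range m).filter fun j => Lev_ch C lev G a j).card +
        C.watchedAt lev a * (((range m).filter fun j => Lev_ch C lev G a j).card + 1) := by
  have hsub : ((range m).filter fun j => Lev_ch C lev G (a + 1) j) ⊆
      ((range m).filter fun j => Lev_ch C lev G a j) ∪
        (C.watched.filter fun x => lev x.1 = a).biUnion fun x =>
          (range m).filter fun j => ¬ Lev_ch C lev G a j ∧
            ¬ (x.2 ≤ C.val x.1 (G j) ↔ x.2 ≤ C.val x.1 (G (j + 1))) := by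
    intro j hj
    rw [Finset.mem_filter] at hj
    obtain ⟨hjm, x, hxw, hxl, hxc⟩ := hj
    rw [Finset.mem_union]
    by_cases h : Lev_ch C lev G a j
    · left; exact Finset.mem_filter.2 ⟨hjm, h⟩
    · right
      refine Finset.mem_biUnion.2 ⟨x, ?_, Finset.mem_filter.2 ⟨hjm, h, hxc⟩⟩
      refine Finset.mem_filter.2 ⟨hxw, ?_⟩
      by_contra hne
      exact h ⟨x, hxw, by omega, hxc⟩
  refine (Finset.card_le_card hsub).trans ((Finset.card_union_le _ _).trans ?_)
  refine Nat.add_le_add_left ?_ _
  unfold Circuit.watchedAt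
  refine Finset.card_biUnion_le_card_mul _ _ _ ?_
  intro x hx
  rw [Finset.mem_filter] at hx
  exact Lev_one C lev hlev G hG m a x hx.2

theorem Lev_all {n s p q : ℕ} (C : Circuit n s p q) (lev : Fin s → ℕ) (hlev : C.IsLevel lev)
    (G : ℕ → SimpleGraph (Fin n)) (hG : Monotone G) (m a : ℕ) :
    ((range m).filter fun j => Lev_ch C lev G a j).card + 1 ≤
      ∏ b ∈ range a, (1 + C.watchedAt lev b) := by
  induction a with
  | zero =>
    have h0 : ((range m).filter fun j => Lev_ch C lev G 0 j) = ∅ := by
      refine Finset.filter_eq_empty_iff.2 ?_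
      rintro j - ⟨x, -, hx, -⟩
      omega
    rw [h0]
    simp
  | succ a ih =>
    rw [Finset.prod_range_succ]
    have h1 := Lev_succ C lev hlev G hG m a
    have h2 := Nat.mul_le_mul_right (1 + C.watchedAt lev a) ih
    refine le_trans ?_ h2
    nlinarith [h1]

theorem changes_levels {n s p q : ℕ} (C : Circuit n s p q) (lev : Fin s → ℕ) (hlev : C.IsLevel lev)
    (D : ℕ) (hD : ∀ x ∈ C.watched, lev x.1 < D) (G : ℕ → SimpleGraph (Fin n)) (hG : Monotone G)
    (m : ℕ) : C.changes G m + 1 ≤ ∏ a ∈ range D, (1 + C.watchedAt lev a) := by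
  have h := Lev_all C lev hlev G hG m D
  have he : C.changes G m = ((range m).filter fun j => Lev_ch C lev G D j).card := by
    unfold Circuit.changes
    congr 1
    refine Finset.filter_congr ?_
    intro j _
    unfold Circuit.Changes Lev_ch
    constructor
    · rintro ⟨x, hx, hc⟩
      exact ⟨x, hx, hD x hx, hc⟩
    · rintro ⟨x, hx, -, hc⟩
      exact ⟨x, hx, hc⟩
  rw [he]
  exact h

end Pool.Agent.H78.KW
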