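import Pool.Agent.H13.MonoHyper

/-!
ROW Cho.  Counting the changes along a random chain.

`pg j ω` (the noise in the blocks below `j` is fine) does not depend on `ω j`; given it, `F j` holds for most values of `ω j`; if `ω` is not bad, `F j ω` implies `Ch j ω`, and at most `a` of
the `Ch j ω` hold.  Proof. Write `tot = |Ω|^J = card (Fin J → Ω)`.
For fixed `j`: `|Ω| cnt_ω (F j ω) = Σ_ω cnt_w (F j (update ω j w)) ≥ Σ_{ω : pg j ω} (1 - ε) |Ω| = (1 - ε) |Ω| cnt_ω (pg j ω)`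
(averaging over the coordinate `j`: see `Cha_...` in Pool/Agent/H78/KK/Cha.lean or `Pool.Agent.H25.NM.nc_update`), so `cnt_ω (F j) ≥ (1 - ε) cnt_ω (pg j) ≥ (7/8) (tot - tot/8) = (49/64) tot`
(`¬ bad ω → pg j ω`). Hence `cnt_ω (F j ∧ ¬ bad) ≥ (49/64 - 8/64) tot ≥ tot / 2`, and
`J tot / 2 ≤ Σ_j cnt_ω (F j ∧ ¬ bad) ≤ Σ_j cnt_ω (Ch j ∧ ¬ bad) = Σ_ω #{j | Ch j ω ∧ ¬ bad ω} ≤ a tot` (`Finset.sum_comm`).
-/

namespace Pool.Agent.H78.KW

open Finset Classical
open H13 (cnt)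

theorem Cho_cnt_eq {β : Type} [Fintype β] (P : β → Prop) [inst : DecidablePred P] :
    cnt P = ∑ z, if P z then (1 : ℝ) else 0 := by
  rw [H13.cnt_eq_card P inst, Finset.card_eq_sum_ones, Finset.sum_filter]
  push_cast
  rfl

theorem Cho_sum_update {Ω K : Type} [Fintype Ω] [Fintype K] [DecidableEq K] (j : K) (h : (K → Ω) → ℝ) :
    ∑ ω : K → Ω, ∑ y : Ω, h (Function.update ω j y) = (Fintype.card Ω : ℝ) * ∑ ω : K → Ω, h ω := by
  rw [← Fintype.sum_prod_type']
  have e : ∑ p : (K → Ω) × Ω, h (Function.update p.1 j p.2) = ∑ p : (K → Ω) × Ω, h p.1 := by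
    refine Finset.sum_bij' (fun p _ => (Function.update p.1 j p.2, p.1 j))
      (fun p _ => (Function.update p.1 j p.2, p.1 j)) ?_ ?_ ?_ ?_ ?_
    · intro p _
      exact mem_univ _
    · intro p _
      exact mem_univ _
    · intro p _
      ext <;> simp
    · intro p _
      ext <;> simp
    · intro p _
      rfl
  rw [e, Fintype.sum_prod_type]
  simp only [Finset.sum_const, Finset.card_univ, nsmul_eq_mul]
  rw [← Finset.mul_sum]

theorem Cho_cnt_update {Ω : Type} [Fintype Ω] {J : ℕ} (j : Fin J) (q : (Fin J → Ω) → Prop) :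
    ∑ ω : Fin J → Ω, cnt (fun y => q (Function.update ω j y)) = (Fintype.card Ω : ℝ) * cnt q := by
  rw [Cho_cnt_eq q, ← Cho_sum_update j fun ω : Fin J → Ω => if q ω then (1 : ℝ) else 0]
  exact Finset.sum_congr rfl fun ω _ => Cho_cnt_eq _

theorem count_changes {Ω : Type} [Fintype Ω] {J : ℕ} (hΩ : 0 < Fintype.card Ω)
    (pg F Ch : Fin J → (Fin J → Ω) → Prop) (bad : (Fin J → Ω) → Prop) (ε : ℝ) (hε : ε ≤ 1 / 8)
    (a : ℕ) (hpg : ∀ j ω w, pg j (Function.update ω j w) ↔ pg j ω)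
    (hpgb : ∀ j ω, ¬ bad ω → pg j ω)
    (hstep : ∀ j ω, pg j ω →
      (1 - ε) * Fintype.card Ω ≤ cnt (fun w => F j (Function.update ω j w)))
    (hF : ∀ j ω, ¬ bad ω → F j ω → Ch j ω)
    (ha : ∀ ω, ¬ bad ω → (univ.filter fun j => Ch j ω).card ≤ a)
    (hbad : cnt bad ≤ 1 / 8 * Fintype.card (Fin J → Ω)) : J ≤ 2 * a := by
  have hO : (0 : ℝ) < Fintype.card Ω := by exact_mod_cast hΩ
  obtain ⟨tot, htot⟩ : ∃ tot : ℝ, tot = (Fintype.card (Fin J → Ω) : ℝ) := ⟨_, rfl⟩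
  have htot0 : 0 < tot := by
    rw [htot, Fintype.card_fun, Fintype.card_fin]
    push_cast
    positivity
  rw [← htot] at hbad
  have hnb : tot ≤ cnt (fun ω : Fin J → Ω => ¬ bad ω) + cnt bad := by
    have h1 : tot = cnt (fun _ : Fin J → Ω => True) := by rw [H13.cnt_true, htot]
    rw [h1]
    refine (H13.cnt_mono fun ω _ => ?_).trans (H13.cnt_or (fun ω => ¬ bad ω) bad)
    by_cases h : bad ω
    · exact Or.inr h
    · exact Or.inl h
  have hj : ∀ j : Fin J, 1 / 2 * tot ≤ cnt (fun ω => Ch j ω ∧ ¬ bad ω) := by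
    intro j
    have h1 : (1 - ε) * Fintype.card Ω * cnt (pg j) ≤ (Fintype.card Ω : ℝ) * cnt (F j) := by
      rw [← Cho_cnt_update j (F j), Cho_cnt_eq (pg j), Finset.mul_sum]
      refine Finset.sum_le_sum fun ω _ => ?_
      by_cases h : pg j ω
      · rw [if_pos h, mul_one]
        exact hstep j ω h
      · rw [if_neg h, mul_zero]
        exact H13.cnt_nonneg _
    have h2 : (1 - ε) * cnt (pg j) ≤ cnt (F j) := by
      have h3 : (Fintype.card Ω : ℝ) * ((1 - ε) * cnt (pg j)) ≤ (Fintype.card Ω : ℝ) * cnt (F j) := by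
        calc (Fintype.card Ω : ℝ) * ((1 - ε) * cnt (pg j)) = (1 - ε) * Fintype.card Ω * cnt (pg j) := by ring
          _ ≤ _ := h1
      exact le_of_mul_le_mul_left h3 hO
    have h4 : cnt (fun ω : Fin J → Ω => ¬ bad ω) ≤ cnt (pg j) := H13.cnt_mono fun ω hω => hpgb j ω hω
    have h5 : 7 / 8 * tot ≤ cnt (pg j) := by linarith
    have h6 : 7 / 8 * (7 / 8 * tot) ≤ cnt (F j) := by
      have h7 : 7 / 8 * cnt (pg j) ≤ (1 - ε) * cnt (pg j) :=
        mul_le_mul_of_nonneg_right (by linarith) (H13.cnt_nonneg _)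
      linarith
    have h8 : cnt (F j) ≤ cnt (fun ω => Ch j ω ∧ ¬ bad ω) + cnt bad := by
      refine (H13.cnt_mono fun ω hω => ?_).trans (H13.cnt_or (fun ω => Ch j ω ∧ ¬ bad ω) bad)
      by_cases h : bad ω
      · exact Or.inr h
      · exact Or.inl ⟨hF j ω h hω, h⟩
    linarith
  have h1 : (J : ℝ) * (1 / 2 * tot) ≤ ∑ j : Fin J, cnt (fun ω => Ch j ω ∧ ¬ bad ω) := by
    have := Finset.sum_le_sum fun (j : Fin J) (_ : j ∈ (univ : Finset (Fin J))) => hj j
    rw [Finset.sum_const, Finset.card_univ, Fintype.card_fin, nsmul_eq_mul] at this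
    exact this
  have h2 : ∑ j : Fin J, cnt (fun ω => Ch j ω ∧ ¬ bad ω) ≤ a * tot := by
    have h3 : ∑ j : Fin J, cnt (fun ω => Ch j ω ∧ ¬ bad ω) =
        ∑ ω : Fin J → Ω, ∑ j : Fin J, (if Ch j ω ∧ ¬ bad ω then (1 : ℝ) else 0) := by
      rw [Finset.sum_comm]
      exact Finset.sum_congr rfl fun j _ => Cho_cnt_eq _
    rw [h3]
    have h4 : ∀ ω : Fin J → Ω, ∑ j : Fin J, (if Ch j ω ∧ ¬ bad ω then (1 : ℝ) else 0) ≤ a := by
      intro ω
      by_cases h : bad ω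
      · have h5 : ∑ j : Fin J, (if Ch j ω ∧ ¬ bad ω then (1 : ℝ) else 0) = 0 :=
          Finset.sum_eq_zero fun j _ => if_neg fun hc => hc.2 h
        rw [h5]
        exact Nat.cast_nonneg a
      · have h5 : ∑ j : Fin J, (if Ch j ω ∧ ¬ bad ω then (1 : ℝ) else 0) = ((univ.filter fun j => Ch j ω).card : ℝ) := by
          rw [Finset.card_eq_sum_ones, Finset.sum_filter]
          push_cast
          refine Finset.sum_congr rfl fun j _ => ?_
          by_cases h6 : Ch j ω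
          · rw [if_pos ⟨h6, h⟩, if_pos h6]
          · rw [if_neg fun hc => h6 hc.1, if_neg h6]
        rw [h5]
        exact_mod_cast ha ω h
    calc ∑ ω : Fin J → Ω, ∑ j : Fin J, (if Ch j ω ∧ ¬ bad ω then (1 : ℝ) else 0)
        ≤ ∑ _ω : Fin J → Ω, (a : ℝ) := Finset.sum_le_sum fun ω _ => h4 ω
      _ = a * tot := by
          rw [Finset.sum_const, Finset.card_univ, nsmul_eq_mul, htot]
          ring
  have h3 : (J : ℝ) * (1 / 2 * tot) ≤ a * tot := h1.trans h2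
  have h4 : (J : ℝ) ≤ 2 * a := by
    have h5 : tot * ((J : ℝ) * (1 / 2)) ≤ tot * a := by
      calc tot * ((J : ℝ) * (1 / 2)) = (J : ℝ) * (1 / 2 * tot) := by ring
        _ ≤ a * tot := h3
        _ = tot * a := by ring
    have h6 := le_of_mul_le_mul_left h5 htot0
    linarith
  exact_mod_cast h4

end Pool.Agent.H78.KW
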