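import Pool.Agent.H78.KW.Defs
import Pool.Agent.H78.KK.Fam

/-!
ROW Frz.  Freezing the special gates.

`h v` is the circuit in which every special gate `i` is replaced by the constant `v i`.
Proof: copy the proof of `Pool.Agent.H78.KK.family` (Pool/Agent/H78/KK/Fam.lean): `Fam_phi`, `Fam_dep` can be used as they are (they are about
`MonoGate C.val p q i`, which follows from `C.mono_gate` with `wires_lt`); `Fam_rec` has to be repeated with `v i` in place of `if i ∈ v then 1 else 0`.
1. `MonoGate (h v) p q i`: a special gate is constant (upper certificate `∅`), the others as in `family`.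
2. special gates have the value `v i`.
3. If `v j = C.val j G` for the special `j ≤ i`, then `h v i G = C.val i G`: strong induction on `i` (`e1` in `family`).
4. `h v i` depends only on the values `v j` of the special gates `j ≤ i`: strong induction on `i` with `Fam_dep`.
-/

namespace Pool.Agent.H78.KW

open Finset Classical
open Pool.Agent.H78.KK (MonoGate)

private theorem Frz_rec {s p q : ℕ} (sp : Finset (Fin s)) (v : Fin s → ℝ) (tst : Fin s → Prop) (w : Fin s → ℝ)
    (φ : Fin s → (Fin s → ℝ) → ℝ) (hφ : ∀ i, i ∉ sp → ¬ tst i → Pool.Agent.H78.KK.Fam_cert p q i (φ i)) :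
    ∃ y : Fin s → ℝ, (∀ i, i ∈ sp → y i = v i) ∧
      (∀ i, i ∉ sp → tst i → y i = w i) ∧ (∀ i, i ∉ sp → ¬ tst i → y i = φ i y) := by
  let F : (i : Fin s) → ((j : Fin s) → j < i → ℝ) → ℝ := fun i prev =>
    if i ∈ sp then v i else
      if tst i then w i else φ i (fun j => if hj : j < i then prev j hj else 0)
  let y : Fin s → ℝ := (wellFounded_lt (α := Fin s)).fix F
  have hy : ∀ i, y i = F i (fun j _ => y j) := fun i =>
    WellFounded.fix_eq (wellFounded_lt (α := Fin s)) F i
  refine ⟨y, ?_, ?_, ?_⟩
  · intro i hi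
    rw [hy i]
    simp only [F, if_pos hi]
  · intro i hi ht
    rw [hy i]
    simp only [F, if_neg hi, if_pos ht]
  · intro i hi ht
    have e : y i = φ i (fun j => if hj : j < i then y j else 0) := by
      rw [hy i]
      simp only [F, if_neg hi, if_neg ht]
    rw [e]
    refine Pool.Agent.H78.KK.Fam_dep (hφ i hi ht) ?_
    intro j hj
    simp [hj]

private theorem Frz_mono {n s p q : ℕ} (C : Circuit n s p q) (i : Fin s) (hi : i ∉ C.special) :
    MonoGate C.val p q i := by
  rcases C.mono_gate i hi with h | h | h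
  · exact Or.inl h
  · refine Or.inr (Or.inl fun G => ?_)
    obtain ⟨S, h1, h2, h3⟩ := h G
    exact ⟨S, h2, fun j hj => C.wires_lt i j (h1 hj), h3⟩
  · refine Or.inr (Or.inr fun G => ?_)
    obtain ⟨S, h1, h2, h3⟩ := h G
    exact ⟨S, h2, fun j hj => C.wires_lt i j (h1 hj), h3⟩

theorem frozen {n s p q : ℕ} (C : Circuit n s p q) :
    ∃ h : (Fin s → ℝ) → Fin s → SimpleGraph (Fin n) → ℝ,
      (∀ v i, MonoGate (h v) p q i) ∧
      (∀ v, ∀ i ∈ C.special, ∀ G, h v i G = v i) ∧
      (∀ v G i, (∀ j ∈ C.special, j ≤ i → C.val j G = v j) → h v i G = C.val i G) ∧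
      ∀ v v' i, (∀ j ∈ C.special, j ≤ i → v j = v' j) → ∀ G, h v i G = h v' i G := by
  have hex : ∀ i, ∃ φ : (Fin s → ℝ) → ℝ, i ∉ C.special → ¬ Pool.Agent.H78.KK.Fam_tst C.val i →
      (∀ G, φ (fun j => C.val j G) = C.val i G) ∧ Pool.Agent.H78.KK.Fam_cert p q i φ := by
    intro i
    by_cases hi : i ∉ C.special ∧ ¬ Pool.Agent.H78.KK.Fam_tst C.val i
    · obtain ⟨φ, h1, h2⟩ := Pool.Agent.H78.KK.Fam_phi C.val i (Frz_mono C i hi.1) hi.2
      exact ⟨φ, fun _ _ => ⟨h1, h2⟩⟩
    · exact ⟨fun _ => 0, fun a b => absurd ⟨a, b⟩ hi⟩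
  choose φ hφ using hex
  have hy := fun (v : Fin s → ℝ) (G : SimpleGraph (Fin n)) =>
    Frz_rec C.special v (Pool.Agent.H78.KK.Fam_tst C.val) (fun i => C.val i G) φ
      (fun i h1 h2 => (hφ i h1 h2).2)
  choose y y1 y2 y3 using hy
  refine ⟨fun v i G => y v G i, ?_, ?_, ?_, ?_⟩
  · intro v i
    by_cases hi : i ∈ C.special
    · refine Or.inr (Or.inl ?_)
      intro G
      refine ⟨∅, by simp, by simp, ?_⟩
      intro G' _
      show y v G' i ≤ y v G i
      rw [y1 v G' i hi, y1 v G i hi]
    · by_cases ht : Pool.Agent.H78.KK.Fam_tst C.val i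
      · refine Or.inl ?_
        obtain ⟨a, b, hab⟩ := id ht
        refine ⟨a, b, fun G => ⟨fun hG => ?_, fun hG => ?_⟩⟩
        · show y v G i = 1
          rw [y2 v G i hi ht]
          exact (hab G).1 hG
        · show y v G i = 0
          rw [y2 v G i hi ht]
          exact (hab G).2 hG
      · rcases (hφ i hi ht).2 with hc | hc
        · refine Or.inr (Or.inl ?_)
          intro G
          obtain ⟨T, h1, h2, h3⟩ := hc (y v G)
          refine ⟨T, h1, h2, ?_⟩
          intro G' hG'
          show y v G' i ≤ y v G i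
          rw [y3 v G' i hi ht, y3 v G i hi ht]
          exact h3 (y v G') hG'
        · refine Or.inr (Or.inr ?_)
          intro G
          obtain ⟨T, h1, h2, h3⟩ := hc (y v G)
          refine ⟨T, h1, h2, ?_⟩
          intro G' hG'
          show y v G i ≤ y v G' i
          rw [y3 v G' i hi ht, y3 v G i hi ht]
          exact h3 (y v G') hG'
  · intro v i hi G
    exact y1 v G i hi
  · intro v G i
    induction i using WellFoundedLT.induction with
    | ind i ih =>
      intro hag
      show y v G i = C.val i G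
      by_cases hi : i ∈ C.special
      · rw [y1 v G i hi]
        exact (hag i hi le_rfl).symm
      · by_cases ht : Pool.Agent.H78.KK.Fam_tst C.val i
        · exact y2 v G i hi ht
        · rw [y3 v G i hi ht, ← (hφ i hi ht).1 G]
          exact Pool.Agent.H78.KK.Fam_dep (hφ i hi ht).2
            (fun j hj => ih j hj (fun k hk hkj => hag k hk (hkj.trans hj.le)))
  · intro v v' i
    induction i using WellFoundedLT.induction with
    | ind i ih =>
      intro hag G
      show y v G i = y v' G i
      by_cases hi : i ∈ C.special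
      · rw [y1 v G i hi, y1 v' G i hi]
        exact hag i hi le_rfl
      · by_cases ht : Pool.Agent.H78.KK.Fam_tst C.val i
        · rw [y2 v G i hi ht, y2 v' G i hi ht]
        · rw [y3 v G i hi ht, y3 v' G i hi ht]
          exact Pool.Agent.H78.KK.Fam_dep (hφ i hi ht).2
            (fun j hj => ih j hj (fun k hk hkj => hag k hk (hkj.trans hj.le)) G)

end Pool.Agent.H78.KW
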