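import Pool.Agent.H78.KK.Cmp

/-!
ROW Stp.  One step of the chain: if the planted input always switches on one of the tests in `W`, then so does the noise, except with small probability.

Proof. Let `h' : Fin (s + 1) → Finset X → ℝ` be `h` on `Fin s` (`Fin.lastCases`, `Fin.castSucc`) and
`h' last y = if ∃ x ∈ W, h x.1 ∅ < x.2 ∧ x.2 ≤ h x.1 y then 1 else 0`.
`DGate h' p q i` for all `i`: for `castSucc i` transport the certificate sets by `Finset.map Fin.castSuccEmb`; the last gate is of the third kind (lower certificates): if the condition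
holds at `y` with `x ∈ W` take `S = {castSucc x.1}` (`1 ≤ q`): `h x.1 y ≤ h x.1 y'` gives `x.2 ≤ h x.1 y'`, so the value at `y'` is `1`; if it fails at `y` take `S = ∅` (the value at
`y` is `0`).  Apply `compare` with `out = Fin.last s`, `t = 1 / 2`: the first count is `|A|` by `hW`, the second is the one in the claim; divide by `|A|`
(`hD.hA`). `((s + 1 : ℕ) : ℝ) = s + 1`.
-/

namespace Pool.Agent.H78.KW

open Finset Classical
open H13 (cnt)
open Pool.Agent.H95.MT (DGate)
open Pool.Agent.H78.KK (Data)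

variable {X : Type} [Fintype X] [DecidableEq X] {Ω A : Type} [Fintype Ω] [Fintype A]

/-- the extended family of functions: a last gate testing `W` -/
noncomputable def Stp_ext {s : ℕ} (h : Fin s → Finset X → ℝ) (W : Finset (Fin s × ℝ)) :
    Fin (s + 1) → Finset X → ℝ :=
  Fin.lastCases (motive := fun _ => Finset X → ℝ)
    (fun y => if ∃ x ∈ W, h x.1 ∅ < x.2 ∧ x.2 ≤ h x.1 y then (1 : ℝ) else 0) h

theorem Stp_ext_cast {s : ℕ} (h : Fin s → Finset X → ℝ) (W : Finset (Fin s × ℝ)) (i : Fin s) :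
    Stp_ext h W i.castSucc = h i := by
  unfold Stp_ext
  exact Fin.lastCases_castSucc (motive := fun _ => Finset X → ℝ) i

theorem Stp_ext_last {s : ℕ} (h : Fin s → Finset X → ℝ) (W : Finset (Fin s × ℝ)) :
    Stp_ext h W (Fin.last s) =
      fun y => if ∃ x ∈ W, h x.1 ∅ < x.2 ∧ x.2 ≤ h x.1 y then (1 : ℝ) else 0 := by
  unfold Stp_ext
  exact Fin.lastCases_last (motive := fun _ => Finset X → ℝ)

theorem Stp_map_lt {s : ℕ} {S : Finset (Fin s)} {i : Fin s} (hS : ∀ j ∈ S, j < i) :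
    ∀ j ∈ S.map Fin.castSuccEmb, j < i.castSucc := by
  intro j hj
  rw [Finset.mem_map] at hj
  obtain ⟨k, hk, rfl⟩ := hj
  exact Fin.castSucc_lt_castSucc_iff.2 (hS k hk)

theorem Stp_gates {s p q : ℕ} (hq : 1 ≤ q) (h : Fin s → Finset X → ℝ)
    (hg : ∀ i, DGate h p q i) (W : Finset (Fin s × ℝ)) (i : Fin (s + 1)) :
    DGate (Stp_ext h W) p q i := by
  induction i using Fin.lastCases with
  | last =>
    right; right
    intro y
    by_cases hy : ∃ x ∈ W, h x.1 ∅ < x.2 ∧ x.2 ≤ h x.1 y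
    · obtain ⟨x, hx, hx1, hx2⟩ := hy
      refine ⟨{x.1.castSucc}, by simpa using hq, ?_, ?_⟩
      · intro j hj
        rw [Finset.mem_singleton] at hj
        rw [hj]
        exact Fin.castSucc_lt_last _
      · intro y' hy'
        have h1 := hy' x.1.castSucc (Finset.mem_singleton_self _)
        rw [Stp_ext_cast] at h1
        rw [Stp_ext_last]
        have h2 : ∃ x ∈ W, h x.1 ∅ < x.2 ∧ x.2 ≤ h x.1 y' := ⟨x, hx, hx1, hx2.trans h1⟩
        simp only [if_pos h2]
        split_ifs <;> norm_num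
    · refine ⟨∅, by simp, by simp, ?_⟩
      intro y' _
      rw [Stp_ext_last]
      simp only [if_neg hy]
      split_ifs <;> norm_num
  | cast i =>
    rcases hg i with ⟨h1, h2⟩ | h1 | h1
    · left
      rw [Stp_ext_cast]
      exact ⟨h1, h2⟩
    · right; left
      intro y
      obtain ⟨S, hS1, hS2, hS3⟩ := h1 y
      refine ⟨S.map Fin.castSuccEmb, by rwa [Finset.card_map], Stp_map_lt hS2, ?_⟩
      intro y' hy'
      rw [Stp_ext_cast]
      refine hS3 y' fun j hj => ?_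
      have := hy' j.castSucc (Finset.mem_map_of_mem Fin.castSuccEmb hj)
      rwa [Stp_ext_cast] at this
    · right; right
      intro y
      obtain ⟨S, hS1, hS2, hS3⟩ := h1 y
      refine ⟨S.map Fin.castSuccEmb, by rwa [Finset.card_map], Stp_map_lt hS2, ?_⟩
      intro y' hy'
      rw [Stp_ext_cast]
      refine hS3 y' fun j hj => ?_
      have := hy' j.castSucc (Finset.mem_map_of_mem Fin.castSuccEmb hj)
      rwa [Stp_ext_cast] at this

/-- the last gate exceeds `1 / 2` exactly when the test is on -/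
theorem Stp_half {s : ℕ} (h : Fin s → Finset X → ℝ) (W : Finset (Fin s × ℝ)) (y : Finset X) :
    (1 / 2 : ℝ) < Stp_ext h W (Fin.last s) y ↔ ∃ x ∈ W, h x.1 ∅ < x.2 ∧ x.2 ≤ h x.1 y := by
  rw [Stp_ext_last]
  by_cases hy : ∃ x ∈ W, h x.1 ∅ < x.2 ∧ x.2 ≤ h x.1 y
  · simp only [if_pos hy]
    exact ⟨fun _ => hy, fun _ => by norm_num⟩
  · simp only [if_neg hy]
    exact ⟨fun h => absurd h (by norm_num), fun h => absurd h hy⟩

theorem one_step {N : Ω → Finset X} {Y : A → Finset X} {L K : ℕ} {R Q B δ σ : ℝ} {p q : ℕ}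
    (hD : Data N Y L K (p : ℝ) R Q B δ) (hq : 1 ≤ q) (hK : (q + 1) * L ≤ K) (hσ : 0 < σ)
    (hlow : ∀ S : Finset X, S.card ≤ L → σ ^ S.card * Fintype.card Ω ≤ cnt (fun w => S ⊆ N w))
    (hσQ : 2 * R ≤ Q * σ) {s : ℕ} (h : Fin s → Finset X → ℝ) (hg : ∀ i, DGate h p q i)
    (W : Finset (Fin s × ℝ)) (hW : ∀ α, ∃ x ∈ W, h x.1 ∅ < x.2 ∧ x.2 ≤ h x.1 (Y α)) :
    (1 - 2 * ((s : ℝ) + 1) * (1 / B) ^ L) * Fintype.card Ω ≤
      cnt (fun w => ∃ x ∈ W, h x.1 ∅ < x.2 ∧ x.2 ≤ h x.1 (N w)) := by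
  have hA : (0 : ℝ) < Fintype.card A := by exact_mod_cast hD.hA
  have hc := Pool.Agent.H78.KK.compare hD hq hK hσ hlow hσQ (Stp_ext h W)
    (Stp_gates hq h hg W) (Fin.last s) (1 / 2)
  have e1 : cnt (fun α => (1 / 2 : ℝ) < Stp_ext h W (Fin.last s) (Y α)) = Fintype.card A := by
    have : (fun α => (1 / 2 : ℝ) < Stp_ext h W (Fin.last s) (Y α)) = fun _ : A => True := by
      funext α
      exact propext ⟨fun _ => trivial, fun _ => (Stp_half h W (Y α)).2 (hW α)⟩
    rw [this, H13.cnt_true]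
  have e2 : cnt (fun w => (1 / 2 : ℝ) < Stp_ext h W (Fin.last s) (N w)) =
      cnt (fun w => ∃ x ∈ W, h x.1 ∅ < x.2 ∧ x.2 ≤ h x.1 (N w)) := by
    congr 1
    funext w
    exact propext (Stp_half h W (N w))
  rw [e1, e2] at hc
  push_cast at hc
  refine le_of_mul_le_mul_left ?_ hA
  linarith

end Pool.Agent.H78.KW
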