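import Pool.Agent.H78.KK.Blk
import Pool.Agent.H78.KW.Frz
import Pool.Agent.H78.KW.Stp
import Pool.Agent.H78.KW.Cho

/-!
The chain argument for circuits whose special gates rarely change along chains.
-/

namespace Pool.Agent.H78.KW

open Finset Classical
open H13 (cnt)
open Pool.Agent.H95.MT (DGate)
open Pool.Agent.H78.KK (Data MonoGate pre put mem_put put_mono block_gate Cha_pre_mono Cha_pre_succ
  Cha_pre_update)

section
variable {n s p q : ℕ} (C : Circuit n s p q) {h : (Fin s → ℝ) → Fin s → SimpleGraph (Fin n) → ℝ}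

/-- The frozen circuit is right on a graph on which its watched tests have not changed. -/
theorem same_of_frozen
    (h3 : ∀ v G i, (∀ j ∈ C.special, j ≤ i → C.val j G = v j) → h v i G = C.val i G)
    {G G' : SimpleGraph (Fin n)}
    (hW : ∀ x ∈ C.watched, (x.2 ≤ h (fun i => C.val i G) x.1 G ↔
      x.2 ≤ h (fun i => C.val i G) x.1 G')) (i : Fin s) :
    C.val i G' = h (fun i => C.val i G) i G' := by
  induction i using WellFoundedLT.induction with
  | ind i ih =>
    symm
    refine h3 _ _ _ fun j hj hji => ?_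
    obtain ⟨h4, h5⟩ := C.special_gate j hj
    refine (h5 G G' fun x hx => ?_).symm
    have hlt : x.1 < j := C.wires_lt j _ (h4 x hx)
    have h6 := hW x (by
      unfold Circuit.watched
      exact Finset.mem_biUnion.2 ⟨j, hj, hx⟩)
    rw [← ih x.1 (hlt.trans_le hji), h3 _ G x.1 fun _ _ _ => rfl] at h6
    exact h6

theorem same_of_not_changes
    (h3 : ∀ v G i, (∀ j ∈ C.special, j ≤ i → C.val j G = v j) → h v i G = C.val i G)
    {G G' : SimpleGraph (Fin n)} (hW : ¬ C.Changes G G') (i : Fin s) :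
    C.val i G' = h (fun i => C.val i G) i G' := by
  symm
  refine h3 _ _ _ fun j hj _ => ?_
  refine ((C.special_gate j hj).2 G G' fun x hx => ?_).symm
  by_contra hcon
  refine hW ⟨x, ?_, hcon⟩
  unfold Circuit.watched
  exact Finset.mem_biUnion.2 ⟨j, hj, hx⟩

end

theorem put_empty {X : Type} [Fintype X] [DecidableEq X] {J : ℕ} (j : Fin J) :
    put j (∅ : Finset X) = ∅ := by
  ext z
  rw [mem_put]
  simp

theorem abs_bound {n s p q J k l L K a : ℕ} {R Q B δ σ θ : ℝ} {X : Type} [Fintype X]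
    [DecidableEq X] {Ω A : Type} [Fintype Ω] [Fintype A] {N : Ω → Finset X} {Y : A → Finset X}
    (hD : Data N Y L K (p : ℝ) R Q B δ) (hq : 1 ≤ q) (hK : (q + 1) * L ≤ K) (hσ : 0 < σ)
    (hlow : ∀ S : Finset X, S.card ≤ L → σ ^ S.card * Fintype.card Ω ≤ cnt (fun w => S ⊆ N w))
    (hσQ : 2 * R ≤ Q * σ) (G : Finset (Fin J × X) → SimpleGraph (Fin n))
    (hG1 : ∀ S S', S ⊆ S' → G S ≤ G S')
    (hG2 : ∀ u v, (∀ S, (G S).Adj u v) ∨ (∀ S, ¬ (G S).Adj u v) ∨
      ∃ e, ∀ S, (G S).Adj u v ↔ e ∈ S)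
    (hG3 : ∀ S c α, put c (Y α) ⊆ S → ¬ (G S).CliqueFree k)
    (hbad : cnt (fun ω : Fin J → Ω => ¬ (G (pre N ω J)).CliqueFree l) ≤
      1 / 8 * Fintype.card (Fin J → Ω))
    (C : Circuit n s p q) (out : Fin s) (hC1 : ∀ G, ¬ G.CliqueFree k → θ ≤ C.val out G)
    (hC2 : ∀ G, G.CliqueFree l → C.val out G < θ)
    (hch : ∀ (m : ℕ) (H : ℕ → SimpleGraph (Fin n)), Monotone H → (∀ j, (H j).CliqueFree l) →
      C.changes H m ≤ a) (hJ : 2 * a < J) : B ^ L < 16 * ((s : ℝ) + 1) := by
  by_contra hcon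
  push Not at hcon
  have hB := hD.hB
  have hB0 : 0 < B := by linarith
  obtain ⟨h, hm, _, h3, _⟩ := frozen C
  have hε : 2 * ((s : ℝ) + 1) * (1 / B) ^ L ≤ 1 / 8 := by
    rw [div_pow, one_pow, mul_one_div, div_le_div_iff₀ (by positivity) (by norm_num)]
    linarith
  have hpre : ∀ (ω : Fin J → Ω) (j : ℕ), pre N ω j ⊆ pre N ω J := by
    intro ω j z hz
    unfold pre at hz ⊢
    rw [Finset.mem_filter] at hz ⊢
    exact ⟨hz.1, z.1.2, hz.2.2⟩
  refine absurd (count_changes (J := J) hD.hΩ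
    (fun j ω => (G (pre N ω j.1)).CliqueFree l)
    (fun j ω => ∃ x ∈ insert (out, θ) C.watched,
      h (fun i => C.val i (G (pre N ω j.1))) x.1 (G (pre N ω j.1)) < x.2 ∧
      x.2 ≤ h (fun i => C.val i (G (pre N ω j.1))) x.1 (G (pre N ω (j.1 + 1))))
    (fun j ω => C.Changes (G (pre N ω j.1)) (G (pre N ω (j.1 + 1))))
    (fun ω => ¬ (G (pre N ω J)).CliqueFree l) _ hε a ?_ ?_ ?_ ?_ ?_ hbad) (by omega)
  · intro j ω w
    simp only [Cha_pre_update]
  · intro j ω hω
    rw [not_not] at hω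
    exact hω.anti (hG1 _ _ (hpre ω j))
  · intro j ω hω
    set S₀ := pre N ω j.1 with hS₀
    set v : Fin s → ℝ := fun i => C.val i (G S₀) with hv
    have h4 := one_step hD hq hK hσ hlow hσQ (fun i x => h v i (G (S₀ ∪ put j x)))
      (fun i => block_gate (hm v) G hG1 hG2 S₀ j i) (insert (out, θ) C.watched) (by
        intro α
        by_contra hno
        push Not at hno
        have hle : ∀ i, h v i (G S₀) ≤ h v i (G (S₀ ∪ put j (Y α))) := fun i =>
          MonoGate.mono (hm v) (hG1 _ _ Finset.subset_union_left) i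
        have hsame : ∀ x ∈ insert (out, θ) C.watched,
            (x.2 ≤ h v x.1 (G S₀) ↔ x.2 ≤ h v x.1 (G (S₀ ∪ put j (Y α)))) := by
          intro x hx
          refine ⟨fun h5 => h5.trans (hle x.1), fun h5 => ?_⟩
          by_contra h6
          push Not at h6
          have h7 := hno x hx
          rw [put_empty, Finset.union_empty] at h7
          exact absurd h5 (not_le.2 (h7 h6))
        have h5 := same_of_frozen C h3 (G := G S₀) (G' := G (S₀ ∪ put j (Y α)))
          (fun x hx => hsame x (Finset.mem_insert_of_mem hx)) out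
        have h6 := hC1 _ (hG3 (S₀ ∪ put j (Y α)) j α Finset.subset_union_right)
        rw [h5] at h6
        have h7 := (hsame (out, θ) (Finset.mem_insert_self _ _)).2 h6
        have h8 : h v out (G S₀) = C.val out (G S₀) := h3 v (G S₀) out fun _ _ _ => rfl
        have h9 := hC2 _ hω
        rw [← h8] at h9
        exact absurd h7 (not_le.2 h9))
    simp only [put_empty, Finset.union_empty] at h4
    refine h4.trans (le_of_eq ?_)
    congr 1
    funext w
    rw [Cha_pre_update, Cha_pre_succ, Cha_pre_update, Function.update_self]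
  · intro j ω hω hF
    rw [not_not] at hω
    obtain ⟨x, hx, h4, h5⟩ := hF
    by_contra hno
    have h6 := same_of_not_changes C h3 hno
    rw [h3 (fun i => C.val i (G (pre N ω j.1))) (G (pre N ω j.1)) x.1 fun _ _ _ => rfl] at h4
    rw [← h6 x.1] at h5
    rcases Finset.mem_insert.1 hx with rfl | hx
    · have h7 := hC2 _ (hω.anti (hG1 _ _ (hpre ω (j.1 + 1))))
      exact absurd h5 (not_le.2 h7)
    · exact hno ⟨x, hx, fun h7 => absurd (h7.2 h5) (not_le.2 h4)⟩
  · intro ω hω
    rw [not_not] at hω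
    have h4 := hch J (fun j => G (pre N ω j)) (fun i j hij => hG1 _ _ (Cha_pre_mono N ω hij))
      (fun j => hω.anti (hG1 _ _ (hpre ω j)))
    refine le_trans ?_ h4
    unfold Circuit.changes
    refine Finset.card_le_card_of_injOn (fun j => j.1) ?_ (fun i _ j _ hij => Fin.ext hij)
    intro j hj
    rw [Finset.mem_coe, Finset.mem_filter] at hj
    exact Finset.mem_coe.2 (Finset.mem_filter.2 ⟨Finset.mem_range.2 j.2, hj.2⟩)

end Pool.Agent.H78.KW
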