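import Mathlib

/-!
Circuits on graphs whose gates are real valued monotone functions with small certificates, and
special gates, which are arbitrary functions of finitely many comparisons.
-/

namespace Pool.Agent.H78.KW

/-- A circuit with `s` gates in topological order on graphs with vertex set `Fin n`; `val i G` is
the value of the gate `i` on the graph `G`, and `wires i` are the earlier gates read by it. A gate
that is not special is
* a test of one pair: `1` if the two vertices are adjacent, else `0`; or
* a gate with upper certificates of size at most `p`: for every graph `G` there is a set `S` of at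
  most `p` gates read by it such that on every graph on which no gate of `S` has a larger value than
  on `G`, the gate itself has no larger value than on `G` (for example any nondecreasing function
  of at most `p` earlier gates, or the minimum of any number of such functions); or
* a gate with lower certificates of size at most `q`: the same with smaller in place of larger.
A special gate is an arbitrary function of its tests, which are comparisons of the values of gates
read by it with real numbers. -/
structure Circuit (n s p q : ℕ) where
  /-- the value of a gate on a graph -/
  val : Fin s → SimpleGraph (Fin n) → ℝ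
  /-- the gates read by a gate -/
  wires : Fin s → Finset (Fin s)
  wires_lt : ∀ i, ∀ j ∈ wires i, j < i
  /-- the special gates -/
  special : Finset (Fin s)
  /-- the tests made by a special gate -/
  tests : Fin s → Finset (Fin s × ℝ)
  mono_gate : ∀ i, i ∉ special →
    (∃ u v, ∀ G, (G.Adj u v → val i G = 1) ∧ (¬ G.Adj u v → val i G = 0)) ∨
    (∀ G, ∃ S ⊆ wires i, S.card ≤ p ∧
      ∀ G', (∀ j ∈ S, val j G' ≤ val j G) → val i G' ≤ val i G) ∨
    (∀ G, ∃ S ⊆ wires i, S.card ≤ q ∧
      ∀ G', (∀ j ∈ S, val j G ≤ val j G') → val i G ≤ val i G')
  special_gate : ∀ i ∈ special, (∀ x ∈ tests i, x.1 ∈ wires i) ∧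
    ∀ G G', (∀ x ∈ tests i, x.2 ≤ val x.1 G ↔ x.2 ≤ val x.1 G') → val i G = val i G'

/-- The set of all tests made by special gates. -/
noncomputable def Circuit.watched {n s p q : ℕ} (C : Circuit n s p q) : Finset (Fin s × ℝ) :=
  open Classical in C.special.biUnion C.tests

/-- Some test made by a special gate has different results on `G` and `G'`. -/
def Circuit.Changes {n s p q : ℕ} (C : Circuit n s p q) (G G' : SimpleGraph (Fin n)) : Prop :=
  ∃ x ∈ C.watched, ¬ (x.2 ≤ C.val x.1 G ↔ x.2 ≤ C.val x.1 G')

/-- The number of steps `j < m` of a sequence of graphs at which some test changes. -/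
noncomputable def Circuit.changes {n s p q : ℕ} (C : Circuit n s p q)
    (G : ℕ → SimpleGraph (Fin n)) (m : ℕ) : ℕ :=
  open Classical in ((Finset.range m).filter fun j => C.Changes (G j) (G (j + 1))).card

/-- The number of tests of gates of level `a` made by special gates. -/
noncomputable def Circuit.watchedAt {n s p q : ℕ} (C : Circuit n s p q) (lev : Fin s → ℕ)
    (a : ℕ) : ℕ :=
  open Classical in (C.watched.filter fun x => lev x.1 = a).card

/-- Levels: nondecreasing along wires into monotone gates, increasing into special gates. -/
def Circuit.IsLevel {n s p q : ℕ} (C : Circuit n s p q) (lev : Fin s → ℕ) : Prop :=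
  ∀ i, ∀ j ∈ C.wires i, lev j ≤ lev i ∧ (i ∈ C.special → lev j < lev i)

end Pool.Agent.H78.KW
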