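import Pool.Agent.H78.KW.Abs
import Pool.Agent.H78.KK.Noi
import Pool.Agent.H78.KK.Gad

/-!
The lower bound with explicit parameters.
-/

namespace Pool.Agent.H78.KW

open Finset Classical
open H13 (cnt Neg)
open Pool.Agent.H78.KK (Data sym YR pre put mem_put gadget noise_le noise_ge block_contains
  rs_spread)

set_option synthInstance.maxSize 1000 in
theorem explicit {F : Type} [Field F] [Fintype F] [DecidableEq F]
    {n k l h T M I g ρ e L p q a s : ℕ} {B : ℝ}
    (hh : 1 ≤ h) (hl : l ≤ k) (hT : h + (k - l) ≤ T) (hM : k - l < M) (hhM : h ≤ M)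
    (hk : 2 * T + 2 * M ≤ k)
    (hn : I * Fintype.card F ^ h * (2 * T + 2 * M) + (k - (2 * T + 2 * M)) ≤ n)
    (x : Fin M → F) (hx : Function.Injective x) (y : Fin T → F) (hy : Function.Injective y)
    (hI : 1 ≤ I)
    (hg : 1 ≤ g) (hρ : 1 ≤ ρ) (he : 1 ≤ e) (hρh : h < 2 ^ ρ) (hB : 1 ≤ B)
    (hp : 1 ≤ p) (hq : 1 ≤ q) (hL : 1 ≤ L) (hqL : (q + 1) * L ≤ h)
    (h1 : 2 * B * p * (4 * ρ * e) ≤ (Fintype.card F : ℝ) ^ (2 * h))
    (h2 : 2 * (4 * ρ * e) * e ≤ Fintype.card F ^ (2 * h))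
    (h3 : ((M * Fintype.card F ^ (2 * h) + 1 : ℕ) : ℝ) ^ h * B ^ h ≤ 2 ^ g)
    (h4 : 8 * (I * I) * Fintype.card F ^ (2 * h * h) * 2 ^ M * (g * ρ) ^ (M - (k - l)) ≤
      e ^ (M - (k - l)))
    (h5 : 2 * a < I * I)
    (C : Circuit n s p q) (out : Fin s) {θ : ℝ}
    (hC1 : ∀ G, ¬ G.CliqueFree k → θ ≤ C.val out G)
    (hC2 : ∀ G, G.CliqueFree l → C.val out G < θ)
    (hch : ∀ (m : ℕ) (H : ℕ → SimpleGraph (Fin n)), Monotone H → (∀ j, (H j).CliqueFree l) →
      C.changes H m ≤ a) : B ^ L < 16 * ((s : ℝ) + 1) := by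
  obtain ⟨G, hG1, hG2, hG3, hG4⟩ := gadget (I := I) hh hl hT hM hk hn x y hy
  have hLh : L ≤ h := by
    have : 1 * L ≤ (q + 1) * L := Nat.mul_le_mul_right _ (by omega)
    omega
  have : NeZero e := ⟨by omega⟩
  let X := Fin M × KK.Sym F h
  let A := Fin h → KK.Sym F h
  let Ω := Fin g → Fin ρ → X → Fin e
  let N : Ω → Finset X := fun w => H13.Neg w
  let Y : A → Finset X := fun α => YR x α
  obtain ⟨D, hD⟩ : ∃ D : ℕ, D = Fintype.card F := ⟨_, rfl⟩
  rw [← hD] at hn h1 h2 h3 h4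
  have hD1 : 1 ≤ D := hD ▸ Fintype.card_pos
  have hcardΓ : Fintype.card (KK.Sym F h) = D ^ (2 * h) := by
    simp only [KK.Sym, Fintype.card_fun, Fintype.card_fin]
    rw [← pow_mul, mul_comm, hD]
  have hcardA : Fintype.card (Fin h → KK.Sym F h) = D ^ (2 * h * h) := by
    rw [Fintype.card_fun, Fintype.card_fin, hcardΓ, ← pow_mul]
  have hcardX : Fintype.card (Fin M × KK.Sym F h) = M * D ^ (2 * h) := by
    rw [Fintype.card_prod, Fintype.card_fin, hcardΓ]
  have hB0 : 0 < B := by linarith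
  have hρ' : (1 : ℝ) ≤ ρ := by exact_mod_cast hρ
  have he' : (1 : ℝ) ≤ e := by exact_mod_cast he
  have he0 : (0 : ℝ) < e := by linarith
  have hΩ0 : 0 < Fintype.card Ω := Fintype.card_pos
  have hA0 : 0 < Fintype.card A := Fintype.card_pos
  have hdata : Data N Y L h (p : ℝ) ((4 * ρ : ℝ) * e) ((D : ℝ) ^ (2 * h)) B ((1 / 2) ^ g) :=
    { hL := hL
      hp := by exact_mod_cast hp
      hR := by nlinarith
      hB := hB
      hQ := h1
      hδ := by positivity
      hδ1 := pow_lt_one₀ (by norm_num) (by norm_num) (by omega)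
      hΩ := hΩ0
      hA := hA0
      hcover := fun J hJ hsize hsp => H13.neg_cover (by omega) hρ hρh J hJ hsize hsp
      hpos := fun S hS => by
        have h1 := rs_spread x hx hhM S hS
        rw [hcardΓ] at h1
        push_cast at h1
        exact h1
      hneg := by
        have h6 := H13.card_small_sets (X := X) h
        rw [hcardX] at h6
        have h7 : ((univ.filter (fun T : Finset X => T.card ≤ h)).card : ℝ) ≤
            ((M * D ^ (2 * h) + 1 : ℕ) : ℝ) ^ h := by exact_mod_cast h6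
        have h8 : B ^ L ≤ B ^ h := pow_le_pow_right₀ hB hLh
        have h9 : ((univ.filter (fun T : Finset X => T.card ≤ h)).card : ℝ) * B ^ L ≤ 2 ^ g :=
          (mul_le_mul h7 h8 (by positivity) (by positivity)).trans h3
        rw [div_pow, div_pow, one_pow, one_pow, mul_one_div, div_le_div_iff₀ (by positivity)
          (by positivity)]
        linarith }
  -- the noise has no clique
  have hM' : 1 ≤ M - (k - l) := by omega
  have hge : g * ρ ≤ e := by
    have h6 : (g * ρ) ^ (M - (k - l)) ≤ e ^ (M - (k - l)) := by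
      refine le_trans (Nat.le_mul_of_pos_left _ ?_) h4
      have hI0 : 0 < I * I := Nat.mul_pos hI hI
      positivity
    exact (Nat.pow_le_pow_iff_left (by omega)).1 h6
  refine abs_bound (J := I * I) (a := a) hdata hq hqL (σ := 1 / (e : ℝ)) (by positivity)
    (fun S _ => noise_ge hg hρ (by omega) S) (by
      rw [mul_one_div, le_div_iff₀ he0]
      have : ((2 * (4 * ρ * e) * e : ℕ) : ℝ) ≤ ((D ^ (2 * h) : ℕ) : ℝ) := by
        exact_mod_cast h2
      push_cast at this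
      exact this) G hG1 hG2 hG3 ?_ C out hC1 hC2 hch h5
  set tot : ℝ := (Fintype.card (Fin (I * I) → Ω) : ℝ) with htot
  have htot0 : 0 < tot := by
    rw [htot]
    have : Nonempty (Fin (I * I) → Ω) := ⟨fun _ => Classical.choice
      (Fintype.card_pos_iff.1 hΩ0)⟩
    exact_mod_cast Fintype.card_pos
  have hΩR : (0 : ℝ) < Fintype.card Ω := by exact_mod_cast hΩ0
  -- one bad event
  have hone : ∀ z : Fin (I * I) × (Fin h → KK.Sym F h) × Finset (Fin M),
      cnt (fun ω : Fin (I * I) → Ω => M - (k - l) ≤ z.2.2.card ∧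
        put z.1 (z.2.2.image fun m => (m, sym x z.2.1 m)) ⊆ pre N ω (I * I)) *
        (e : ℝ) ^ (M - (k - l)) ≤ ((g * ρ : ℕ) : ℝ) ^ (M - (k - l)) * tot := by
    intro z
    by_cases hz : M - (k - l) ≤ z.2.2.card
    · set P := z.2.2.image fun m => (m, sym x z.2.1 m) with hP
      have hPc : P.card = z.2.2.card := by
        rw [hP, Finset.card_image_of_injective]
        intro a b hab
        exact (Prod.mk.inj hab).1
      have e1 : cnt (fun ω : Fin (I * I) → Ω => M - (k - l) ≤ z.2.2.card ∧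
          put z.1 P ⊆ pre N ω (I * I)) ≤ cnt (fun ω : Fin (I * I) → Ω => P ⊆ N (ω z.1)) := by
        apply H13.cnt_mono
        rintro ω ⟨_, hω⟩ a ha
        have := hω (mem_put.2 ⟨rfl, ha⟩ : ((z.1, a) : Fin (I * I) × X) ∈ put z.1 P)
        unfold pre at this
        exact (Finset.mem_filter.1 this).2.2
      have e2 := block_contains z.1 (fun w : Ω => P ⊆ N w)
      have e3 : cnt (fun w : Ω => P ⊆ N w) * (e : ℝ) ^ P.card ≤
          ((g * ρ : ℕ) : ℝ) ^ P.card * Fintype.card Ω := noise_le (by omega) P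
      have e4 : cnt (fun ω : Fin (I * I) → Ω => P ⊆ N (ω z.1)) * (e : ℝ) ^ P.card ≤
          ((g * ρ : ℕ) : ℝ) ^ P.card * tot := by
        rw [← mul_le_mul_iff_left₀ hΩR]
        calc cnt (fun ω : Fin (I * I) → Ω => P ⊆ N (ω z.1)) * (e : ℝ) ^ P.card *
              Fintype.card Ω = cnt (fun ω : Fin (I * I) → Ω => P ⊆ N (ω z.1)) *
              Fintype.card Ω * (e : ℝ) ^ P.card := by ring
          _ = cnt (fun w : Ω => P ⊆ N w) * tot * (e : ℝ) ^ P.card := by rw [e2]
          _ = cnt (fun w : Ω => P ⊆ N w) * (e : ℝ) ^ P.card * tot := by ring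
          _ ≤ ((g * ρ : ℕ) : ℝ) ^ P.card * Fintype.card Ω * tot :=
              mul_le_mul_of_nonneg_right e3 htot0.le
          _ = _ := by ring
      have hge' : ((g * ρ : ℕ) : ℝ) ≤ e := by exact_mod_cast hge
      obtain ⟨a, ha⟩ : ∃ a, P.card = M - (k - l) + a := ⟨P.card - (M - (k - l)), by omega⟩
      rw [ha, pow_add, pow_add] at e4
      have hea : (0 : ℝ) < (e : ℝ) ^ a := by positivity
      have h7 : ((g * ρ : ℕ) : ℝ) ^ a ≤ (e : ℝ) ^ a := pow_le_pow_left₀ (by positivity) hge' a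
      refine (mul_le_mul_of_nonneg_right e1 (by positivity)).trans ?_
      rw [← mul_le_mul_iff_left₀ hea]
      calc cnt (fun ω : Fin (I * I) → Ω => P ⊆ N (ω z.1)) * (e : ℝ) ^ (M - (k - l)) *
            (e : ℝ) ^ a ≤ ((g * ρ : ℕ) : ℝ) ^ (M - (k - l)) * ((g * ρ : ℕ) : ℝ) ^ a * tot := by
            rw [mul_assoc]
            exact e4
        _ = ((g * ρ : ℕ) : ℝ) ^ (M - (k - l)) * tot * ((g * ρ : ℕ) : ℝ) ^ a := by ring
        _ ≤ ((g * ρ : ℕ) : ℝ) ^ (M - (k - l)) * tot * (e : ℝ) ^ a :=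
            mul_le_mul_of_nonneg_left h7 (by positivity)
    · rw [H13.cnt_eq_zero (fun ω hω => hz hω.1), zero_mul]
      positivity
  have e1 : cnt (fun ω : Fin (I * I) → Ω => ¬ (G (pre N ω (I * I))).CliqueFree l) ≤
      ∑ z : Fin (I * I) × (Fin h → KK.Sym F h) × Finset (Fin M),
      cnt (fun ω : Fin (I * I) → Ω => M - (k - l) ≤ z.2.2.card ∧
      put z.1 (z.2.2.image fun m => (m, sym x z.2.1 m)) ⊆ pre N ω (I * I)) := by
    refine le_trans (H13.cnt_mono (Q := fun ω : Fin (I * I) → Ω =>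
      ∃ z ∈ (univ : Finset (Fin (I * I) × (Fin h → KK.Sym F h) × Finset (Fin M))),
      M - (k - l) ≤ z.2.2.card ∧
      put z.1 (z.2.2.image fun m => (m, sym x z.2.1 m)) ⊆ pre N ω (I * I)) ?_)
      (H13.cnt_exists _ _)
    intro ω hω
    obtain ⟨c, α, P, h6, h7⟩ := hG4 _ hω
    exact ⟨(c, α, P), Finset.mem_univ _, h6, h7⟩
  have heM : (0 : ℝ) < (e : ℝ) ^ (M - (k - l)) := by positivity
  refine e1.trans ?_
  rw [← mul_le_mul_iff_left₀ heM, Finset.sum_mul]
  refine (Finset.sum_le_sum fun z _ => hone z).trans ?_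
  rw [Finset.sum_const, nsmul_eq_mul, Finset.card_univ, Fintype.card_prod, Fintype.card_prod,
    Fintype.card_finset, Fintype.card_fin, Fintype.card_fin, hcardA]
  have h8 : ((8 * (I * I) * D ^ (2 * h * h) * 2 ^ M * (g * ρ) ^ (M - (k - l)) : ℕ) : ℝ) ≤
      ((e ^ (M - (k - l)) : ℕ) : ℝ) := by exact_mod_cast h4
  push_cast at h8 ⊢
  have h9 := mul_le_mul_of_nonneg_right h8 htot0.le
  linarith

end Pool.Agent.H78.KW
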