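import Pool.Agent.H78.KK.Prm

/-!
ROW Par.  The parameters, second version (copy of Pool/Agent/H78/KK/Prm.lean by helper15 with small changes; its lemmas `Prm_log` etc. may be used).

Changes: the hypothesis is `p (a + 1) ≤ n ^ μ`; in place of `τ = 2 ^ r (r t + 1) ≤ I²/4` we want `2 a < I²`: take `I = Nat.sqrt (2 a) + 1` (`2a < I² ≤ 8 (a + 1)`), so there are no logarithms of `r` any more:
`d^(2h) ≥ n²/(C₁ I²) ≥ n²/(8 C₁ (a+1)) ≥ p n^(2-μ)/(8 C₁)`; `B = 32 n^(δ/2)` in place of `8 (r+1) n^(δ/2)`; and the constant `2` in the fourth condition is now `8`. Everything else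
(`ρ = h`, `e = ⌈n^(δ/2 - 2η)⌉`, `g = 5 h (Nat.log 2 n + 1)` or a bit larger, `η = δ/(16 k)`, `T`, `M`) as before.
-/

namespace Pool.Agent.H78.KW

open Pool.Agent.H78.KK (Prm_log Prm_D)

theorem Par_fix {k h T M m n p a : ℕ} {δ η : ℝ} (hk : 1 ≤ k) (hh : 1 ≤ h) (hδ0 : 0 < δ)
    (hδ2 : δ ≤ 2) (hη0 : 0 < η) (hη : 2 * η ≤ δ / 2) (hTM : 2 * T + 2 * M ≤ k)
    (hexp : 2 * (h : ℝ) + δ / 8 ≤ m * (δ / 2 - 2 * η))
    (ha : 512 * h * (256 * 4 ^ h * (k : ℝ) ^ 2) * ((Nat.log 2 n + 1 : ℕ) : ℝ) ^ 2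
      ≤ (n : ℝ) ^ (2 * η))
    (hb : 2 ^ (M + 3) * (5 * h * h) ^ m * ((Nat.log 2 n + 1 : ℕ) : ℝ) ^ m ≤ (n : ℝ) ^ (δ / 8))
    (hd : (4 * k * (2 * k + 4) ^ h) ^ 2 * 32 * ((Nat.log 2 n + 1 : ℕ) : ℝ) ^ 1 ≤ (n : ℝ) ^ δ)
    (he : 2 * k + 32 ≤ n) (hp : 1 ≤ p)
    (hpt : (p : ℝ) * ((a : ℝ) + 1) ≤ (n : ℝ) ^ (2 - δ)) :
    ∃ (I d g ρ e : ℕ) (B : ℝ), d.Prime ∧ M ≤ d ∧ T ≤ d ∧ 1 ≤ I ∧ 1 ≤ g ∧ 1 ≤ ρ ∧ 1 ≤ e ∧
      h < 2 ^ ρ ∧ 1 ≤ B ∧
      2 * B * p * (4 * ρ * e) ≤ (d : ℝ) ^ (2 * h) ∧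
      2 * (4 * ρ * e) * e ≤ d ^ (2 * h) ∧
      ((M * d ^ (2 * h) + 1 : ℕ) : ℝ) ^ h * B ^ h ≤ 2 ^ g ∧
      8 * (I * I) * d ^ (2 * h * h) * 2 ^ M * (g * ρ) ^ m ≤ e ^ m ∧
      2 * a < I * I ∧
      I * d ^ h * (2 * T + 2 * M) + (k - (2 * T + 2 * M)) ≤ n ∧
      32 * (n : ℝ) ^ (δ / 2) ≤ B := by
  have hnL : n < 2 ^ (Nat.log 2 n + 1) := Nat.lt_pow_succ_log_self (by norm_num) n
  obtain ⟨L, hL⟩ : ∃ L : ℕ, L = Nat.log 2 n + 1 := ⟨_, rfl⟩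
  rw [← hL] at ha hb hd hnL
  rw [pow_one] at hd
  have hL1 : 1 ≤ L := by omega
  have hL1r : (1:ℝ) ≤ L := by exact_mod_cast hL1
  have hn1 : (1:ℝ) ≤ n := by exact_mod_cast (by omega : 1 ≤ n)
  have hn32 : (32:ℝ) ≤ n := by exact_mod_cast (by omega : 32 ≤ n)
  have hn4 : 4 ≤ n := by omega
  have hn0 : (0:ℝ) < n := by linarith
  have hp1 : (1:ℝ) ≤ p := by exact_mod_cast hp
  have ha0 : (0:ℝ) ≤ a := Nat.cast_nonneg a
  have hk1 : (1:ℝ) ≤ k := by exact_mod_cast hk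
  have hh1 : (1:ℝ) ≤ h := by exact_mod_cast hh
  -- τ
  obtain ⟨τ, hτ⟩ : ∃ τ : ℝ, τ = (a : ℝ) + 1 := ⟨_, rfl⟩
  have hτ1 : 1 ≤ τ := by rw [hτ]; linarith
  have hτb : (p:ℝ) * τ ≤ (n:ℝ) ^ (2 - δ) := by rw [hτ]; exact hpt
  -- I
  obtain ⟨I, hI⟩ : ∃ I : ℕ, I = Nat.sqrt (2 * a) + 1 := ⟨_, rfl⟩
  have hI1 : 1 ≤ I := by omega
  have hI4 : 2 * a < I * I := by
    rw [hI]
    exact Nat.lt_succ_sqrt (2 * a)
  have hI16 : I * I ≤ 8 * (a + 1) := by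
    have h1 : Nat.sqrt (2 * a) * Nat.sqrt (2 * a) ≤ 2 * a := Nat.sqrt_le (2 * a)
    have h2 : 2 * Nat.sqrt (2 * a) ≤ Nat.sqrt (2 * a) * Nat.sqrt (2 * a) + 1 := by
      rcases Nat.lt_or_ge (Nat.sqrt (2 * a)) 2 with h3 | h3
      · interval_cases (Nat.sqrt (2 * a)) <;> omega
      · nlinarith
    rw [hI]
    nlinarith
  have hI16r : (I:ℝ) ^ 2 ≤ 8 * τ := by
    have h1 : I ^ 2 ≤ 8 * (a + 1) := by rw [sq]; exact hI16
    rw [hτ]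
    exact_mod_cast h1
  have hIr : (1:ℝ) ≤ I := by exact_mod_cast hI1
  -- D
  obtain ⟨D, hD1, hD2⟩ := Prm_D (K := 4 * k * I) (h := h) (n := n)
    (Nat.mul_pos (Nat.mul_pos (by norm_num) hk) hI1) hh
  have hX : (n:ℝ) ^ (2:ℕ) = (n:ℝ) ^ δ * (n:ℝ) ^ (2 - δ) := by
    rw [← Real.rpow_add hn0, ← Real.rpow_natCast (n:ℝ) 2]
    congr 1
    push_cast; ring
  have hnμ : (0:ℝ) < (n:ℝ) ^ (2 - δ) := Real.rpow_pos_of_pos hn0 _
  have hτ' : τ ≤ (n:ℝ) ^ (2 - δ) := by nlinarith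
  have hDbig : 2 * k + 4 < D + 1 := by
    by_contra hcon
    have hcon' : D + 1 ≤ 2 * k + 4 := by omega
    have h1 : n < 4 * k * I * (2 * k + 4) ^ h :=
      lt_of_lt_of_le hD2 (Nat.mul_le_mul_left _ (Nat.pow_le_pow_left hcon' h))
    have h2 : (n:ℝ) < 4 * k * I * (2 * k + 4) ^ h := by exact_mod_cast h1
    have h3 : (n:ℝ) ^ 2 < (4 * k * I * (2 * k + 4) ^ h) ^ 2 :=
      pow_lt_pow_left₀ h2 hn0.le (by norm_num)
    have h4 : ((4:ℝ) * k * I * (2 * k + 4) ^ h) ^ 2 ≤ (n:ℝ) ^ 2 := by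
      calc ((4:ℝ) * k * I * (2 * k + 4) ^ h) ^ 2
          = (4 * k * (2 * k + 4) ^ h) ^ 2 * (I:ℝ) ^ 2 := by ring
        _ ≤ (4 * k * (2 * k + 4) ^ h) ^ 2 * (8 * ((n:ℝ) ^ (2 - δ))) := by
            apply mul_le_mul_of_nonneg_left _ (by positivity)
            linarith
        _ ≤ (4 * k * (2 * k + 4) ^ h) ^ 2 * ((32 * L) * (n:ℝ) ^ (2 - δ)) := by
            apply mul_le_mul_of_nonneg_left _ (by positivity)
            exact mul_le_mul_of_nonneg_right (by linarith) hnμ.le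
        _ = ((4 * k * (2 * k + 4) ^ h) ^ 2 * 32 * (L:ℝ)) * (n:ℝ) ^ (2 - δ) := by ring
        _ ≤ (n:ℝ) ^ δ * (n:ℝ) ^ (2 - δ) := mul_le_mul_of_nonneg_right hd hnμ.le
        _ = (n:ℝ) ^ 2 := hX.symm
    linarith
  obtain ⟨d, hdp, hd1, hd2⟩ := Nat.exists_prime_lt_and_le_two_mul (D / 2) (by omega)
  have hdD : d ≤ D := by omega
  have hDd : D + 1 ≤ 2 * d := by omega
  have hdh : 4 * k * I * d ^ h ≤ n := le_trans (Nat.mul_le_mul_left _ (Nat.pow_le_pow_left hdD h)) hD1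
  have hId : I * d ^ h * (4 * k) ≤ n := by
    calc I * d ^ h * (4 * k) = 4 * k * I * d ^ h := by ring
      _ ≤ n := hdh
  have hId1 : I * d ^ h ≤ n := by
    refine le_trans ?_ hId
    exact Nat.le_mul_of_pos_right _ (by omega)
  have hdhn : d ^ h ≤ n := le_trans (Nat.le_mul_of_pos_left _ hI1) hId1
  obtain ⟨Q, hQ⟩ : ∃ Q : ℝ, Q = (d:ℝ) ^ (2 * h) := ⟨_, rfl⟩
  have hQ0 : 0 < Q := by
    rw [hQ]
    have : (0:ℝ) < d := by exact_mod_cast hdp.pos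
    positivity
  have hτ0 : 0 ≤ τ := by linarith
  have hnlow : (n:ℝ) ^ 2 ≤ 256 * 4 ^ h * (k:ℝ) ^ 2 * τ * Q := by
    have h1 : n ≤ 4 * k * I * (2 * d) ^ h :=
      le_trans (le_of_lt hD2) (Nat.mul_le_mul_left _ (Nat.pow_le_pow_left hDd h))
    have h2 : (n:ℝ) ≤ 4 * k * I * (2 * d) ^ h := by exact_mod_cast h1
    calc (n:ℝ) ^ 2 ≤ (4 * k * I * (2 * d) ^ h) ^ 2 := pow_le_pow_left₀ hn0.le h2 2
      _ = 16 * k ^ 2 * 4 ^ h * Q * (I:ℝ) ^ 2 := by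
          rw [hQ, mul_pow, mul_pow, mul_pow, ← pow_mul, mul_pow, mul_comm h 2, pow_mul 2 2 h]
          ring
      _ ≤ 16 * k ^ 2 * 4 ^ h * Q * (16 * τ) :=
          mul_le_mul_of_nonneg_left (by linarith) (by positivity)
      _ = 256 * 4 ^ h * (k:ℝ) ^ 2 * τ * Q := by ring
  obtain ⟨C, hC⟩ : ∃ C : ℝ, C = 256 * 4 ^ h * (k:ℝ) ^ 2 := ⟨_, rfl⟩
  rw [← hC] at ha hnlow
  have hC0 : 0 < C := by rw [hC]; positivity
  obtain ⟨X, hXd⟩ : ∃ X : ℝ, X = (n:ℝ) ^ δ := ⟨_, rfl⟩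
  obtain ⟨Y, hYd⟩ : ∃ Y : ℝ, Y = (n:ℝ) ^ (δ / 2) := ⟨_, rfl⟩
  obtain ⟨Z, hZd⟩ : ∃ Z : ℝ, Z = (n:ℝ) ^ (δ / 2 - 2 * η) := ⟨_, rfl⟩
  obtain ⟨W, hWd⟩ : ∃ W : ℝ, W = (n:ℝ) ^ (2 * η) := ⟨_, rfl⟩
  have hXYZW : X = Y * Z * W := by
    rw [hXd, hYd, hZd, hWd, ← Real.rpow_add hn0, ← Real.rpow_add hn0]
    congr 1; ring
  have hX0 : 0 < X := by rw [hXd]; exact Real.rpow_pos_of_pos hn0 _
  have hY1 : 1 ≤ Y := by rw [hYd]; exact Real.one_le_rpow hn1 (by linarith)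
  have hZ1 : 1 ≤ Z := by rw [hZd]; exact Real.one_le_rpow hn1 (by linarith)
  have hW1 : 1 ≤ W := by rw [hWd]; exact Real.one_le_rpow hn1 (by linarith)
  have hZY : Z ≤ Y := by
    rw [hZd, hYd]; exact Real.rpow_le_rpow_of_exponent_le hn1 (by linarith)
  have hkey : (p:ℝ) * X ≤ C * Q := by
    have h1 : (p:ℝ) * X * (n:ℝ) ^ (2 - δ) ≤ C * Q * (n:ℝ) ^ (2 - δ) := by
      calc (p:ℝ) * X * (n:ℝ) ^ (2 - δ) = (p:ℝ) * (n:ℝ) ^ 2 := by rw [hX, hXd]; ring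
        _ ≤ (p:ℝ) * (C * τ * Q) := mul_le_mul_of_nonneg_left hnlow (by positivity)
        _ = C * Q * ((p:ℝ) * τ) := by ring
        _ ≤ C * Q * ((n:ℝ) ^ (2 - δ)) :=
            mul_le_mul_of_nonneg_left hτb (by positivity)
    exact le_of_mul_le_mul_right h1 hnμ
  have hW : 512 * h * C ≤ W := by
    have h1 : (1:ℝ) ≤ (L:ℝ) ^ 2 := one_le_pow₀ hL1r
    calc 512 * h * C = 512 * h * C * 1 := by ring
      _ ≤ 512 * h * C * (L:ℝ) ^ 2 := mul_le_mul_of_nonneg_left h1 (by positivity)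
      _ ≤ W := by rw [hWd]; exact ha
  obtain ⟨e, hed⟩ : ∃ e : ℕ, e = ⌈Z⌉₊ := ⟨_, rfl⟩
  have heZ : Z ≤ e := by rw [hed]; exact Nat.le_ceil Z
  have he2Z : (e:ℝ) ≤ 2 * Z := by
    have : (e:ℝ) < Z + 1 := by rw [hed]; exact Nat.ceil_lt_add_one (by linarith)
    linarith
  have he1 : 1 ≤ e := by
    have : (1:ℝ) ≤ e := by linarith
    exact_mod_cast this
  refine ⟨I, d, 5 * h * L, h, e, 32 * Y, hdp, by omega, by omega, hI1, ?_, hh, he1,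
    Nat.lt_two_pow_self, ?_, ?_, ?_, ?_, ?_, hI4, ?_, ?_⟩
  · exact Nat.mul_pos (Nat.mul_pos (by norm_num) hh) hL1
  · linarith
  · -- 1
    rw [← hQ]
    have h1 : C * (2 * (32 * Y) * p * (4 * h * e)) ≤ C * Q := by
      calc C * (2 * (32 * Y) * p * (4 * h * e))
          = 256 * h * C * (Y * p) * e := by ring
        _ ≤ 256 * h * C * (Y * p) * (2 * Z) :=
            mul_le_mul_of_nonneg_left he2Z (by positivity)
        _ = (512 * h * C) * (Y * p * Z) := by ring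
        _ ≤ W * (Y * p * Z) := mul_le_mul_of_nonneg_right hW (by positivity)
        _ = p * X := by rw [hXYZW]; ring
        _ ≤ C * Q := hkey
    exact le_of_mul_le_mul_left h1 hC0
  · -- 2
    have h2 : (2:ℝ) * (4 * h * e) * e ≤ (d:ℝ) ^ (2 * h) := by
      rw [← hQ]
      have h1 : C * (2 * (4 * h * e) * e) ≤ C * Q := by
        calc C * (2 * (4 * h * e) * e)
            = 8 * h * C * (e:ℝ) ^ 2 := by ring
          _ ≤ 8 * h * C * (2 * Z) ^ 2 :=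
              mul_le_mul_of_nonneg_left (pow_le_pow_left₀ (by positivity) he2Z 2) (by positivity)
          _ = 32 * (h * C) * (Z * Z) := by ring
          _ ≤ (512 * h * C) * (Z * Z) := by
              apply mul_le_mul_of_nonneg_right _ (by positivity)
              have h3 : 0 ≤ h * C := by positivity
              linarith
          _ ≤ W * (Z * Z) := mul_le_mul_of_nonneg_right hW (by positivity)
          _ ≤ W * (Y * Z) := by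
              apply mul_le_mul_of_nonneg_left _ (by positivity)
              exact mul_le_mul_of_nonneg_right hZY (by positivity)
          _ = 1 * X := by rw [hXYZW]; ring
          _ ≤ p * X := mul_le_mul_of_nonneg_right hp1 hX0.le
          _ ≤ C * Q := hkey
      exact le_of_mul_le_mul_left h1 hC0
    exact_mod_cast h2
  · -- 3
    have hdn2 : d ^ (2 * h) * (4 * k) ≤ n * n := by
      rw [mul_comm 2 h, pow_mul, sq]
      calc d ^ h * d ^ h * (4 * k) ≤ (I * d ^ h * (4 * k)) * d ^ h := by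
            have : d ^ h * d ^ h * (4 * k) ≤ I * (d ^ h * d ^ h * (4 * k)) :=
              Nat.le_mul_of_pos_left _ hI1
            calc d ^ h * d ^ h * (4 * k) ≤ I * (d ^ h * d ^ h * (4 * k)) := this
              _ = (I * d ^ h * (4 * k)) * d ^ h := by ring
        _ ≤ n * n := Nat.mul_le_mul hId hdhn
    have h1 : M * d ^ (2 * h) + 1 ≤ n ^ 3 := by
      have h2 : M * d ^ (2 * h) ≤ n * n := by
        calc M * d ^ (2 * h) = d ^ (2 * h) * M := mul_comm _ _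
          _ ≤ d ^ (2 * h) * (4 * k) := Nat.mul_le_mul_left _ (by omega)
          _ ≤ n * n := hdn2
      have h3 : n * n + 1 ≤ n ^ 3 := by
        have : n ^ 3 = n * (n * n) := by ring
        nlinarith
      omega
    have h1r : ((M * d ^ (2 * h) + 1 : ℕ) : ℝ) ≤ (n:ℝ) ^ 3 := by exact_mod_cast h1
    have hYn : Y ≤ n := by
      rw [hYd]
      calc (n:ℝ) ^ (δ / 2) ≤ (n:ℝ) ^ (1:ℝ) := Real.rpow_le_rpow_of_exponent_le hn1 (by linarith)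
        _ = n := Real.rpow_one _
    have hB : 32 * Y ≤ (n:ℝ) ^ 2 := by
      calc 32 * Y ≤ n * n := mul_le_mul hn32 hYn (by positivity) hn0.le
        _ = (n:ℝ) ^ 2 := by ring
    have hnn : (n:ℝ) ≤ 2 ^ L := by exact_mod_cast le_of_lt hnL
    calc ((M * d ^ (2 * h) + 1 : ℕ) : ℝ) ^ h * (32 * Y) ^ h
        = (((M * d ^ (2 * h) + 1 : ℕ) : ℝ) * (32 * Y)) ^ h := (mul_pow _ _ _).symm
      _ ≤ ((n:ℝ) ^ 3 * (n:ℝ) ^ 2) ^ h := by
          apply pow_le_pow_left₀ (by positivity)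
          exact mul_le_mul h1r hB (by positivity) (by positivity)
      _ = (n:ℝ) ^ (5 * h) := by rw [← pow_add, ← pow_mul]
      _ ≤ ((2:ℝ) ^ L) ^ (5 * h) := pow_le_pow_left₀ hn0.le hnn _
      _ = 2 ^ (5 * h * L) := by rw [← pow_mul, mul_comm L]
  · -- 4
    have h1 : I * I * d ^ (2 * h * h) ≤ n ^ (2 * h) := by
      calc I * I * d ^ (2 * h * h) ≤ I ^ (2 * h) * d ^ (2 * h * h) := by
            apply Nat.mul_le_mul_right
            calc I * I = I ^ 2 := (sq I).symm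
              _ ≤ I ^ (2 * h) := Nat.pow_le_pow_right hI1 (by omega)
        _ = (I * d ^ h) ^ (2 * h) := by
            rw [mul_pow, ← pow_mul, mul_comm h (2 * h)]
        _ ≤ n ^ (2 * h) := Nat.pow_le_pow_left hId1 _
    have h1r : (I:ℝ) * I * (d:ℝ) ^ (2 * h * h) ≤ (n:ℝ) ^ (2 * h) := by exact_mod_cast h1
    have h2 : (8:ℝ) * (I * I) * d ^ (2 * h * h) * 2 ^ M * (5 * h * L * h) ^ m ≤ (e:ℝ) ^ m := by
      calc (8:ℝ) * (I * I) * d ^ (2 * h * h) * 2 ^ M * (5 * h * L * h) ^ m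
          = ((I:ℝ) * I * (d:ℝ) ^ (2 * h * h)) *
              (2 ^ (M + 3) * (5 * h * h) ^ m * (L:ℝ) ^ m) := by
            have : (5 * (h:ℝ) * L * h) ^ m = (5 * h * h) ^ m * (L:ℝ) ^ m := by
              rw [← mul_pow]; congr 1; ring
            rw [this, pow_add]; ring
        _ ≤ (n:ℝ) ^ (2 * h) * (n:ℝ) ^ (δ / 8) :=
            mul_le_mul h1r hb (by positivity) (by positivity)
        _ = (n:ℝ) ^ (2 * (h:ℝ) + δ / 8) := by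
            rw [Real.rpow_add hn0, ← Real.rpow_natCast (n:ℝ) (2 * h)]
            push_cast; rfl
        _ ≤ (n:ℝ) ^ (m * (δ / 2 - 2 * η)) := Real.rpow_le_rpow_of_exponent_le hn1 hexp
        _ = Z ^ m := by
            rw [hZd, ← Real.rpow_natCast, ← Real.rpow_mul hn0.le]
            congr 1; ring
        _ ≤ (e:ℝ) ^ m := pow_le_pow_left₀ (by linarith) heZ m
    exact_mod_cast h2
  · -- 5
    have h1 : I * d ^ h * (2 * T + 2 * M) ≤ I * d ^ h * k := Nat.mul_le_mul_left _ hTM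
    have h2 : I * d ^ h * (4 * k) = 4 * (I * d ^ h * k) := by ring
    omega
  · rw [hYd]

theorem params2 {k l h : ℕ} {μ : ℝ} (hlk : l ≤ k) (hμ0 : 0 ≤ μ) (hμ2 : μ < 2) (hh : 1 ≤ h)
    (hh2 : 12 * (h : ℝ) ≤ (4 * (l : ℝ) - 3 * k - 2) * (2 - μ)) :
    ∃ T M n₀ : ℕ, h + (k - l) ≤ T ∧ k - l < M ∧ h ≤ M ∧ 2 * T + 2 * M ≤ k ∧
      ∀ n ≥ n₀, ∀ p a : ℕ, 1 ≤ p → (p : ℝ) * ((a : ℝ) + 1) ≤ (n : ℝ) ^ μ →
        ∃ (I d g ρ e : ℕ) (B : ℝ), d.Prime ∧ M ≤ d ∧ T ≤ d ∧ 1 ≤ I ∧ 1 ≤ g ∧ 1 ≤ ρ ∧ 1 ≤ e ∧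
          h < 2 ^ ρ ∧ 1 ≤ B ∧
          2 * B * p * (4 * ρ * e) ≤ (d : ℝ) ^ (2 * h) ∧
          2 * (4 * ρ * e) * e ≤ d ^ (2 * h) ∧
          ((M * d ^ (2 * h) + 1 : ℕ) : ℝ) ^ h * B ^ h ≤ 2 ^ g ∧
          8 * (I * I) * d ^ (2 * h * h) * 2 ^ M * (g * ρ) ^ (M - (k - l)) ≤ e ^ (M - (k - l)) ∧
          2 * a < I * I ∧
          I * d ^ h * (2 * T + 2 * M) + (k - (2 * T + 2 * M)) ≤ n ∧
          32 * (n : ℝ) ^ ((2 - μ) / 2) ≤ B := by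
  have hδ0 : 0 < 2 - μ := by linarith
  have hδ2 : 2 - μ ≤ 2 := by linarith
  have hhr : (1:ℝ) ≤ h := by exact_mod_cast hh
  have hkl : 3 * k + 2 + 6 * h ≤ 4 * l := by
    have h1 : 6 * (h:ℝ) ≤ 4 * l - 3 * k - 2 := by
      by_contra hcon
      push Not at hcon
      rcases le_or_gt (4 * (l:ℝ) - 3 * k - 2) 0 with h0 | h0
      · have : (4 * (l : ℝ) - 3 * k - 2) * (2 - μ) ≤ 0 := mul_nonpos_of_nonpos_of_nonneg h0 hδ0.le
        linarith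
      · have : (4 * (l : ℝ) - 3 * k - 2) * (2 - μ) ≤ (4 * (l : ℝ) - 3 * k - 2) * 2 :=
          mul_le_mul_of_nonneg_left hδ2 h0.le
        linarith
    have h2 : 3 * (k:ℝ) + 2 + 6 * h ≤ 4 * l := by linarith
    exact_mod_cast h2
  obtain ⟨m, hm⟩ : ∃ m : ℕ, m = (k / 2 - (h + (k - l))) - (k - l) := ⟨_, rfl⟩
  have hk1 : 1 ≤ k := by omega
  have hkr : (1:ℝ) ≤ k := by exact_mod_cast hk1
  have hmk : 2 * m ≤ k := by omega
  have hmlow : 4 * l ≤ 2 * m + 3 * k + 1 + 2 * h := by omega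
  have hmlowr : 4 * (l:ℝ) ≤ 2 * m + 3 * k + 1 + 2 * h := by exact_mod_cast hmlow
  have hmkr : 2 * (m:ℝ) ≤ k := by exact_mod_cast hmk
  have hmδ : 4 * (h:ℝ) + (2 - μ) / 2 ≤ m * (2 - μ) := by
    have h1 : (4 * (l : ℝ) - 3 * k - 2) * (2 - μ) ≤ (2 * m + 2 * h - 1) * (2 - μ) :=
      mul_le_mul_of_nonneg_right (by linarith) hδ0.le
    have h2 : (h:ℝ) * (2 - μ) ≤ h * 2 := mul_le_mul_of_nonneg_left hδ2 (by linarith)
    nlinarith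
  obtain ⟨η, hη⟩ : ∃ η : ℝ, η = (2 - μ) / (16 * k) := ⟨_, rfl⟩
  have hη0 : 0 < η := by rw [hη]; positivity
  have hηk : η * k = (2 - μ) / 16 := by rw [hη]; field_simp
  have hηle : η ≤ (2 - μ) / 16 := by rw [← hηk]; nlinarith
  have hmη : m * η ≤ (2 - μ) / 32 := by nlinarith
  obtain ⟨na, ha⟩ := Prm_log (512 * h * (256 * 4 ^ h * (k : ℝ) ^ 2)) 2 (ε := 2 * η) (by linarith)
  obtain ⟨nb, hb⟩ := Prm_log (2 ^ (k / 2 - (h + (k - l)) + 3) * (5 * h * h) ^ m) m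
    (ε := (2 - μ) / 8) (by linarith)
  obtain ⟨nd, hd⟩ := Prm_log ((4 * k * (2 * k + 4) ^ h) ^ 2 * 32) 1 (ε := 2 - μ) hδ0
  refine ⟨h + (k - l), k / 2 - (h + (k - l)), na + nb + nd + (2 * k + 32), le_rfl, by omega,
    by omega, by omega, ?_⟩
  intro n hn p a hp hpt
  rw [← hm]
  refine Par_fix (δ := 2 - μ) (η := η) hk1 hh hδ0 hδ2 hη0 (by linarith) (by omega) ?_ ?_ ?_ ?_
    (by omega) hp (by rw [sub_sub_cancel]; exact hpt)
  · nlinarith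
  · exact ha n (by omega)
  · exact hb n (by omega)
  · exact hd n (by omega)

end Pool.Agent.H78.KW
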