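import Pool.Agent.H78.KW.Expl
import Pool.Agent.H78.KW.Par
import Pool.Agent.H78.KW.Lev
import Pool.Agent.H78.KW.Few

/-!
The lower bound for `k`-clique with gates of large fan-in.
-/

namespace Pool.Agent.H78.KW

open Finset

theorem zmod_injective {M d : ℕ} (h : M ≤ d) :
    Function.Injective fun m : Fin M => ((m : ℕ) : ZMod d) := by
  intro a b hab
  have h1 : ((a : ℕ) : ZMod d) = ((b : ℕ) : ZMod d) := hab
  rw [ZMod.natCast_eq_natCast_iff'] at h1
  rw [Nat.mod_eq_of_lt (a.2.trans_le h), Nat.mod_eq_of_lt (b.2.trans_le h)] at h1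
  exact Fin.ext h1

/-- The chain form. -/
theorem main_chain {k l : ℕ} {μ : ℝ} (hlk : l ≤ k) (hμ0 : 0 ≤ μ) (hμ2 : μ < 2) :
    ∃ n₀ : ℕ, ∀ n ≥ n₀, ∀ s p q : ℕ, 1 ≤ p → 1 ≤ q →
      ∀ (C : Circuit n s p q) (out : Fin s) (θ : ℝ),
        (∀ G : SimpleGraph (Fin n), ¬ G.CliqueFree k → θ ≤ C.val out G) →
        (∀ G : SimpleGraph (Fin n), G.CliqueFree l → C.val out G < θ) →
        (s : ℝ) < (n : ℝ) ^
          ((2 - μ) ^ 2 * (4 * (l : ℝ) - 3 * k - 2) / (24 * ((q : ℝ) + 1)) - 1 + μ / 2) →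
        ∃ (m : ℕ) (H : ℕ → SimpleGraph (Fin n)), Monotone H ∧ (∀ j, (H j).CliqueFree l) ∧
          (n : ℝ) ^ μ < p * ((C.changes H m : ℝ) + 1) := by
  set K' : ℝ := 4 * (l : ℝ) - 3 * k - 2 with hK'
  set h : ℕ := ⌊K' * (2 - μ) / 12⌋₊ with hh
  have hδ : 0 < 2 - μ := by linarith
  have hlt : K' * (2 - μ) / 12 < h + 1 := Nat.lt_floor_add_one _
  have hexp : ∀ q : ℕ, (2 - μ) ^ 2 * K' / (24 * ((q : ℝ) + 1)) ≤
      (2 - μ) / 2 * (((h : ℝ) + 1) / (q + 1)) := by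
    intro q
    have hq0 : (0 : ℝ) < (q : ℝ) + 1 := by positivity
    have e1 : (2 - μ) ^ 2 * K' / (24 * ((q : ℝ) + 1)) =
        (2 - μ) / 2 * ((K' * (2 - μ) / 12) / (q + 1)) := by
      field_simp
      ring
    rw [e1]
    exact mul_le_mul_of_nonneg_left (div_le_div_of_nonneg_right hlt.le hq0.le) (by linarith)
  -- the trivial case
  have htriv : ∀ n : ℕ, 1 ≤ n → ∀ s q : ℕ, ∀ _ : Fin s, h < q + 1 →
      (n : ℝ) ^ ((2 - μ) ^ 2 * K' / (24 * ((q : ℝ) + 1)) - 1 + μ / 2) ≤ s := by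
    intro n hn s q out hhq
    have hn1 : (1 : ℝ) ≤ n := by exact_mod_cast hn
    have hs : (1 : ℝ) ≤ s := by
      have : 1 ≤ s := by
        have := out.2
        omega
      exact_mod_cast this
    have hq0 : (0 : ℝ) < (q : ℝ) + 1 := by positivity
    have h1 : ((h : ℝ) + 1) / (q + 1) ≤ 1 := by
      rw [div_le_one hq0]
      have : ((h + 1 : ℕ) : ℝ) ≤ ((q + 1 : ℕ) : ℝ) := by exact_mod_cast hhq
      push_cast at this
      exact this
    have h2 := hexp q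
    have h3 : (2 - μ) / 2 * (((h : ℝ) + 1) / (q + 1)) ≤ (2 - μ) / 2 * 1 :=
      mul_le_mul_of_nonneg_left h1 (by linarith)
    refine (Real.rpow_le_rpow_of_exponent_le hn1 (show _ ≤ (0 : ℝ) by linarith)).trans ?_
    rw [Real.rpow_zero]
    exact hs
  by_cases hh1 : 1 ≤ h
  swap
  · refine ⟨1, fun n hn s p q _ hq C out θ _ _ hs => ?_⟩
    exact absurd hs (not_lt.2 (htriv n hn s q out (by omega)))
  have hK0 : 0 ≤ K' * (2 - μ) / 12 := by
    by_contra hcon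
    push Not at hcon
    have := Nat.floor_of_nonpos hcon.le
    omega
  have hfl : (h : ℝ) ≤ K' * (2 - μ) / 12 := Nat.floor_le hK0
  have hl2 : 2 ≤ l := by
    have h1R : (1 : ℝ) ≤ h := by exact_mod_cast hh1
    have h2 : 0 < K' * (2 - μ) := by linarith
    have h3 : 0 < K' := pos_of_mul_pos_left h2 hδ.le
    have h4 : (l : ℝ) ≤ k := by exact_mod_cast hlk
    rw [hK'] at h3
    have h5 : (2 : ℝ) ≤ l := by linarith
    exact_mod_cast h5
  obtain ⟨T, M, n₀, hT, hM, hhM, hk, hP⟩ := params2 hlk hμ0 hμ2 hh1 (by linarith)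
  refine ⟨max 1 n₀, fun n hn s p q hp hq C out θ hC1 hC2 hs => ?_⟩
  have hn1 : 1 ≤ n := (le_max_left _ _).trans hn
  have hn1R : (1 : ℝ) ≤ n := by exact_mod_cast hn1
  have hn0 : (0 : ℝ) < n := by linarith
  by_cases hhq : h < q + 1
  · exact absurd hs (not_lt.2 (htriv n hn1 s q out hhq))
  push Not at hhq
  by_contra hcon
  push Not at hcon
  have hp0 : (0 : ℝ) < p := by exact_mod_cast hp
  -- the number of changes
  set b : ℕ := ⌊(n : ℝ) ^ μ / p⌋₊ with hb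
  have hbot : Monotone fun _ : ℕ => (⊥ : SimpleGraph (Fin n)) := fun _ _ _ => le_rfl
  have hbound : ∀ (m : ℕ) (H : ℕ → SimpleGraph (Fin n)), Monotone H →
      (∀ j, (H j).CliqueFree l) → C.changes H m + 1 ≤ b := by
    intro m H h1 h2
    have h3 := hcon m H h1 h2
    rw [hb, Nat.le_floor_iff (by positivity), le_div_iff₀ hp0, mul_comm]
    push_cast
    exact h3
  have hb1 : 1 ≤ b := by
    have := hbound 0 _ hbot fun _ => SimpleGraph.cliqueFree_bot hl2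
    omega
  have hpb : (p : ℝ) * (((b - 1 : ℕ) : ℝ) + 1) ≤ (n : ℝ) ^ μ := by
    have e1 : (((b - 1 : ℕ) : ℝ) + 1) = b := by
      rw [Nat.cast_sub hb1]
      push_cast
      ring
    rw [e1, mul_comm, ← le_div_iff₀ hp0]
    exact Nat.floor_le (by positivity)
  obtain ⟨I, d, g, ρ, e, B, hd, hMd, hTd, hI, hg, hρ, he, hρh, hB, h1, h2, h3, h4, h5, h6, h7⟩ :=
    hP n ((le_max_right _ _).trans hn) p (b - 1) hp hpb
  have : Fact d.Prime := ⟨hd⟩
  have hcard : Fintype.card (ZMod d) = d := ZMod.card d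
  set L : ℕ := h / (q + 1) with hL
  have hL1 : 1 ≤ L := (Nat.one_le_div_iff (by omega)).2 hhq
  have hqL : (q + 1) * L ≤ h := by
    rw [mul_comm]
    exact Nat.div_mul_le_self h (q + 1)
  have hmain := explicit (F := ZMod d) (T := T) (I := I) hh1 hlk hT hM hhM hk
    (by rw [hcard]; exact h6)
    (fun m : Fin M => ((m : ℕ) : ZMod d)) (zmod_injective hMd)
    (fun m : Fin T => ((m : ℕ) : ZMod d)) (zmod_injective hTd)
    hI hg hρ he hρh hB hp hq hL1 hqL (by rw [hcard]; exact h1) (by rw [hcard]; exact h2)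
    (by rw [hcard]; exact h3) (by rw [hcard]; exact h4) h5 C out hC1 hC2
    (fun m H h8 h9 => by
      have := hbound m H h8 h9
      omega)
  -- the exponents
  have hX0 : (0 : ℝ) < (n : ℝ) ^ ((2 - μ) / 2) := by positivity
  have h8 : 32 * ((n : ℝ) ^ ((2 - μ) / 2)) ^ L ≤ B ^ L := by
    calc 32 * ((n : ℝ) ^ ((2 - μ) / 2)) ^ L
        ≤ (32 : ℝ) ^ L * ((n : ℝ) ^ ((2 - μ) / 2)) ^ L := by
          refine mul_le_mul_of_nonneg_right ?_ (by positivity)
          exact le_self_pow₀ (by norm_num) (by omega)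
      _ = (32 * (n : ℝ) ^ ((2 - μ) / 2)) ^ L := (mul_pow _ _ L).symm
      _ ≤ B ^ L := pow_le_pow_left₀ (by positivity) h7 L
  have hs1 : (1 : ℝ) ≤ s := by
    have : 1 ≤ s := by
      have := out.2
      omega
    exact_mod_cast this
  have h10 : ((n : ℝ) ^ ((2 - μ) / 2)) ^ L < s := by linarith
  rw [← Real.rpow_natCast, ← Real.rpow_mul hn0.le] at h10
  refine absurd (hs.trans_le (Real.rpow_le_rpow_of_exponent_le hn1R ?_)) (not_lt.2 h10.le)
  have h12 := hexp q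
  have h13 : ((h : ℝ) + 1) / (q + 1) ≤ L + 1 := by
    rw [div_le_iff₀ (by positivity)]
    have e1 : h + 1 ≤ (L + 1) * (q + 1) := by
      have := Nat.lt_div_mul_add (a := h) (b := q + 1) (by omega)
      have e2 : (L + 1) * (q + 1) = h / (q + 1) * (q + 1) + (q + 1) := by rw [hL]; ring
      omega
    exact_mod_cast e1
  have h14 := mul_le_mul_of_nonneg_left h13 (show 0 ≤ (2 - μ) / 2 by linarith)
  linarith

theorem main {k l : ℕ} {μ : ℝ} (hlk : l ≤ k) (hμ0 : 0 ≤ μ) (hμ2 : μ < 2) :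
    ∃ n₀ : ℕ, ∀ n ≥ n₀, ∀ s p q : ℕ, 1 ≤ p → 1 ≤ q →
      ∀ (C : Circuit n s p q) (out : Fin s) (θ : ℝ),
        (∀ G : SimpleGraph (Fin n), ¬ G.CliqueFree k → θ ≤ C.val out G) →
        (∀ G : SimpleGraph (Fin n), G.CliqueFree l → C.val out G < θ) →
        (s : ℝ) < (n : ℝ) ^
          ((2 - μ) ^ 2 * (4 * (l : ℝ) - 3 * k - 2) / (24 * ((q : ℝ) + 1)) - 1 + μ / 2) →
        (∃ (m : ℕ) (H : ℕ → SimpleGraph (Fin n)), Monotone H ∧ (∀ j, (H j).CliqueFree l) ∧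
          (n : ℝ) ^ μ < p * ((C.changes H m : ℝ) + 1)) ∧
        (∀ (lev : Fin s → ℕ) (D : ℕ), C.IsLevel lev → (∀ x ∈ C.watched, lev x.1 < D) →
          (n : ℝ) ^ μ < p * ∏ a ∈ range D, (1 + (C.watchedAt lev a : ℝ))) ∧
        ∀ r t : ℕ, C.special.card ≤ r → (∀ i ∈ C.special, (C.tests i).card ≤ t) →
          (∀ i ∈ C.special, ∀ G, C.val i G = 0 ∨ C.val i G = 1) →
          (n : ℝ) ^ μ < p * (t * (2 ^ r - 1) + 1) := by
  obtain ⟨n₀, hn₀⟩ := main_chain hlk hμ0 hμ2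
  refine ⟨n₀, fun n hn s p q hp hq C out θ hC1 hC2 hs => ?_⟩
  obtain ⟨m, H, h1, h2, h3⟩ := hn₀ n hn s p q hp hq C out θ hC1 hC2 hs
  have hp0 : (0 : ℝ) < p := by exact_mod_cast hp
  refine ⟨⟨m, H, h1, h2, h3⟩, fun lev D hlev hD => ?_, fun r t hr ht h01 => ?_⟩
  · refine h3.trans_le (mul_le_mul_of_nonneg_left ?_ hp0.le)
    exact_mod_cast changes_levels C lev hlev D hD H h1 m
  · refine h3.trans_le (mul_le_mul_of_nonneg_left ?_ hp0.le)
    have h4 := changes_few C hr ht h01 H h1 m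
    have h5 : ((C.changes H m : ℕ) : ℝ) ≤ ((t * (2 ^ r - 1) : ℕ) : ℝ) := by exact_mod_cast h4
    push_cast [Nat.cast_sub (Nat.one_le_two_pow (n := r))] at h5
    linarith

end Pool.Agent.H78.KW
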